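import Pool.Agent.Lib.MP_e46711_an.H74.Dead

/-!
# MP_e46711_an, module C5b: the alive barrier
-/

open Set Filter Topology MeasureTheory

namespace Pool.Agent.Lib.MP_e46711_an.H74

open Pool.Agent.Lib.MP_e46711_an

/-- C5d -/
theorem aliveBarrier : AliveBarrier := by
  intro P x y hA
  obtain ⟨hx0, hAl⟩ := hA
  have hp0 := P.hp0
  have hp1 := P.hp1
  have hc := P.hc
  have hτ := P.hτ
  have hL : 0 < P.L0 := P.hL0
  have hL2 : P.L0 < P.L2 := P.hL01.trans P.hL12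
  have ha : 0 < P.a := by linarith [P.ha]
  have PF := profFacts (p := P.p) hp0 hp1 hL
  have hτT := tau_lt P hL hL2.le
  set L := P.L0 with hLdef
  -- choice of `ρ`
  obtain ⟨ρ, ⟨e1, e2⟩, hρ⟩ : ∃ ρ, (0 < x - ρ ∧
      prof' P.p L P.τ < P.c * (y - ρ - prof P.p L P.τ)) ∧ 0 < ρ := by
    have t1 : ∀ᶠ ρ in 𝓝 (0:ℝ), 0 < x - ρ :=
      ((by fun_prop : Continuous fun ρ : ℝ => x - ρ).tendsto' 0 x (by simp)).eventually_const_lt
        hx0
    have t2 : ∀ᶠ ρ in 𝓝 (0:ℝ), prof' P.p L P.τ < P.c * (y - ρ - prof P.p L P.τ) :=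
      ((by fun_prop : Continuous fun ρ : ℝ => P.c * (y - ρ - prof P.p L P.τ)).tendsto' 0
        (P.c * (y - prof P.p L P.τ)) (by simp)).eventually_const_lt hAl
    exact (((t1.and t2).filter_mono nhdsWithin_le_nhds).and
      (self_mem_nhdsWithin : ∀ᶠ ρ in 𝓝[>] (0:ℝ), 0 < ρ)).exists
  set x' := x - ρ with hx'
  set y' := y - ρ with hy'
  -- choice of `η`
  obtain ⟨η, ⟨⟨⟨n1, n2⟩, n3⟩, n4⟩, hη⟩ : ∃ η, (((P.τ + η < profT P.p L ∧ prof P.p L η < 1) ∧
      prof' P.p L (P.τ + η) < P.c * (y' - prof P.p L (P.τ + η))) ∧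
      L * (prof P.p L η ^ P.p - prof P.p L η) < P.a * (x' - prof P.p L η)) ∧ 0 < η := by
    have c0 : Tendsto (prof P.p L) (𝓝 0) (𝓝 0) := by
      have := (PF.d1 0 PF.T0).continuousAt.tendsto
      rwa [PF.zero 0 le_rfl] at this
    have cs : Tendsto (fun η : ℝ => P.τ + η) (𝓝 0) (𝓝 P.τ) :=
      (by fun_prop : Continuous fun η : ℝ => P.τ + η).tendsto' 0 P.τ (by simp)
    have cτ := ((PF.d1 P.τ hτT).continuousAt.tendsto).comp cs
    have cτ' := ((PF.d2 P.τ hτT).continuousAt.tendsto).comp cs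
    have t1 : ∀ᶠ η in 𝓝 (0:ℝ), P.τ + η < profT P.p L := cs.eventually_lt_const hτT
    have t2 : ∀ᶠ η in 𝓝 (0:ℝ), prof P.p L η < 1 := c0.eventually_lt_const one_pos
    have t3 : ∀ᶠ η in 𝓝 (0:ℝ), prof' P.p L (P.τ + η) < P.c * (y' - prof P.p L (P.τ + η)) :=
      cτ'.eventually_lt ((cτ.const_sub y').const_mul P.c) e2
    have t4 : ∀ᶠ η in 𝓝 (0:ℝ), L * (prof P.p L η ^ P.p - prof P.p L η)
        < P.a * (x' - prof P.p L η) := by
      have c1 : Tendsto (fun η => prof P.p L η ^ P.p) (𝓝 0) (𝓝 (0 ^ P.p)) :=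
        c0.rpow_const (Or.inr hp0.le)
      rw [Real.zero_rpow hp0.ne'] at c1
      refine ((c1.sub c0).const_mul L).eventually_lt ((c0.const_sub x').const_mul P.a) ?_
      simp only [sub_zero, mul_zero]
      positivity
    exact (((((t1.and t2).and t3).and t4).filter_mono nhdsWithin_le_nhds).and
      (self_mem_nhdsWithin : ∀ᶠ η in 𝓝[>] (0:ℝ), 0 < η)).exists
  have hr0 : 0 < prof P.p L η := PF.pos η hη (by linarith)
  have hr0' : 0 < prof' P.p L η := PF.pos' η hη (by linarith)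
  have hv0 : 0 < prof P.p L (P.τ + η) := PF.pos _ (by linarith) n1
  have hv0' : 0 < prof' P.p L (P.τ + η) := PF.pos' _ (by linarith) n1
  set r := prof P.p L η with hr
  set v := prof P.p L (P.τ + η) with hv
  set v' := prof' P.p L (P.τ + η) with hv'
  have hrr := rpow_gt hp1 hr0 n2
  obtain ⟨Fh, f1, f2⟩ := exists_between n4
  have f4 : 0 < Fh := lt_trans (mul_pos hL (by linarith)) f1
  -- conditions on `ε`
  obtain ⟨δ, hδ0, hδ⟩ : ∃ δ > 0, ∀ u, |u - r| < δ → -Fh ≤ L * gg P.p u := by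
    have t1 : ∀ᶠ u in 𝓝 r, -Fh < L * gg P.p u := by
      have hcg : Continuous fun u => L * gg P.p u := continuous_const.mul (continuous_gg hp0)
      refine (hcg.tendsto r).eventually_const_lt ?_
      rw [gg_of_nonneg hp0 hr0.le]
      linarith
    obtain ⟨δ, h1, h2⟩ := Metric.eventually_nhds_iff.1 t1
    exact ⟨δ, h1, fun u hu => (h2 (by rwa [Real.dist_eq])).le⟩
  have g1 : ∀ᶠ ε in 𝓝[>] (0:ℝ), v' * (1 + 2 * ε ^ 2) < P.c * (y' - v - L * DA P ε) := by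
    have a1 := (((tendsto_DA P).const_mul L).const_sub (y' - v)).const_mul P.c
    rw [mul_zero, sub_zero] at a1
    have a2 : Tendsto (fun ε : ℝ => v' * (1 + 2 * ε ^ 2)) (𝓝[>] 0) (𝓝 v') :=
      ((by fun_prop : Continuous fun ε : ℝ => v' * (1 + 2 * ε ^ 2)).tendsto' 0 v'
        (by simp)).mono_left nhdsWithin_le_nhds
    exact a2.eventually_lt a1 n3
  have g2 : ∀ᶠ ε in 𝓝[>] (0:ℝ), 2 * L * ε ^ 4 + Fh * ε ^ 2 < δ := by
    have : Tendsto (fun ε : ℝ => 2 * L * ε ^ 4 + Fh * ε ^ 2) (𝓝[>] 0) (𝓝 0) :=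
      ((by fun_prop : Continuous fun ε : ℝ => 2 * L * ε ^ 4 + Fh * ε ^ 2).tendsto' 0 0
        (by simp)).mono_left nhdsWithin_le_nhds
    exact this.eventually_lt_const hδ0
  have g3 : ∀ᶠ ε in 𝓝[>] (0:ℝ), (L * ε ^ 2 + Fh) * (1 + 2 * ε ^ 2)
      + P.a * (2 * L * ε ^ 4 + Fh * ε ^ 2 + L * DE P ε) < P.a * (x' - r) := by
    have a1 : Tendsto (fun ε : ℝ => (L * ε ^ 2 + Fh) * (1 + 2 * ε ^ 2)) (𝓝[>] 0) (𝓝 Fh) :=
      ((by fun_prop : Continuous fun ε : ℝ => (L * ε ^ 2 + Fh) * (1 + 2 * ε ^ 2)).tendsto' 0 Fh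
        (by simp)).mono_left nhdsWithin_le_nhds
    have a2 : Tendsto (fun ε : ℝ => 2 * L * ε ^ 4 + Fh * ε ^ 2) (𝓝[>] 0) (𝓝 0) :=
      ((by fun_prop : Continuous fun ε : ℝ => 2 * L * ε ^ 4 + Fh * ε ^ 2).tendsto' 0 0
        (by simp)).mono_left nhdsWithin_le_nhds
    have a3 := a1.add ((a2.add ((tendsto_DE P).const_mul L)).const_mul P.a)
    rw [mul_zero, add_zero, mul_zero, add_zero] at a3
    exact a3.eventually_lt_const f2
  refine ⟨ρ, hρ, ?_⟩
  filter_upwards [self_mem_nhdsWithin, g1, g2, g3] with ε hε k1 k2 k3 h hR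
  replace hε : 0 < ε := hε
  have hh := hR.smooth.continuous
  have hpos := hR.pos
  have O := ord (P := P) hε
  have rA := resA hε hR
  have dA := dsA hε hR
  have rE := resE hε hR
  have dEE := dsE hε hR
  have dRR := dsR hε hR
  have rRR := rsR hε hR
  have mJJ := msJ hε hR
  have dJJ := dsJ hε hR
  have dA0 := ds_nonneg hh hpos (P.s8 ε) (P.s5 ε)
  have dE0 := ds_nonneg hh hpos (P.s11 ε) (P.s14 ε)
  have mJ0 := ms_nonneg hh hpos O.o910.le
  set r2 := - rs h (P.s8 ε) (P.s5 ε) with hr2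
  set D := ds h (P.s8 ε) (P.s5 ε) with hDD
  set rE' := rs h (P.s11 ε) (P.s14 ε) with hrE'
  set D' := ds h (P.s11 ε) (P.s14 ε) with hDD'
  set mJ := ms h (P.s9 ε) (P.s10 ε) with hmJ
  have hr2pos : 0 < r2 := lt_of_lt_of_le (by positivity) rA.1
  have hrEpos : 0 < rE' := lt_of_lt_of_le (by positivity) rE.1
  set F2 := (y' - v - L * D) / r2 with hF2
  have hF2r : F2 * r2 = y' - v - L * D := by rw [hF2]; field_simp
  have hLD : L * D ≤ L * DA P ε := mul_le_mul_of_nonneg_left dA hL.le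
  have hF2v : ε * v' ≤ F2 := by
    rw [hF2, le_div_iff₀ hr2pos]
    have h1 : ε * v' * r2 ≤ ε * v' * ((1 + 2 * ε ^ 2) / (P.c * ε)) :=
      mul_le_mul_of_nonneg_left rA.2 (by positivity)
    have h2 : ε * v' * ((1 + 2 * ε ^ 2) / (P.c * ε)) = v' * (1 + 2 * ε ^ 2) / P.c := by
      field_simp
    have h3 : v' * (1 + 2 * ε ^ 2) / P.c ≤ y' - v - L * D := by
      rw [div_le_iff₀ hc, mul_comm _ P.c]
      exact k1.le.trans (mul_le_mul_of_nonneg_left (sub_le_sub_left hLD (y' - v)) hc.le)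
    linarith
  have hF20 : 0 < F2 := lt_of_lt_of_le (by positivity) hF2v
  set q : ℝ → ℝ := fun t => prof P.p L (P.τ + η - t) with hq
  set q' : ℝ → ℝ := fun t => - prof' P.p L (P.τ + η - t) with hq'
  set VA := vl h (P.s8 ε) v (-F2) (-L) with hVA
  set VQ : ℝ → ℝ := fun s => q (s - P.s8 ε) with hVQ
  set VJ := vl h (P.s9 ε) r 0 (-L) with hVJ
  set w0 := VJ (P.s10 ε) with hw0
  set VR := vl h (P.s10 ε) w0 (L * mJ) (-Fh) with hVR
  set w := VR (P.s11 ε) with hw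
  set FE := (x' - w - L * D') / rE' with hFE
  set VE := vl h (P.s11 ε) w FE (-L) with hVE
  set U := pw (P.s8 ε) (P.s9 ε) (P.s10 ε) (P.s11 ε) VA VQ VJ VR VE with hU
  have q0 : q 0 = v := by simp only [hq, sub_zero, hv]
  have q0' : q' 0 = - v' := by simp only [hq', sub_zero, hv']
  have qτ : q P.τ = r := by simp only [hq, add_sub_cancel_left, hr]
  have qτ' : q' P.τ = - prof' P.p L η := by simp only [hq', add_sub_cancel_left]
  have hs9 : P.s9 ε = P.s8 ε + P.τ := by linarith [s89 P ε]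
  have E1 : VA (P.s8 ε) = VQ (P.s8 ε) := by
    simp only [hVA, hVQ, vl_self, sub_self, q0]
  have E2 : VQ (P.s9 ε) = VJ (P.s9 ε) := by
    simp only [hVQ, hVJ, vl_self]
    rw [s89 P ε, qτ]
  have E3 : VJ (P.s10 ε) = VR (P.s10 ε) := by
    simp only [hVR, vl_self, hw0]
  have E4 : VR (P.s11 ε) = VE (P.s11 ε) := by
    simp only [hVE, vl_self, hw]
  have U1 : ∀ s ∈ Icc (P.s5 ε) (P.s8 ε), U s = VA s := fun s hs => pw1 hs.2
  have U2 : ∀ s ∈ Icc (P.s8 ε) (P.s9 ε), U s = VQ s := fun s hs => pw2 E1 hs.1 hs.2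
  have U3 : ∀ s ∈ Icc (P.s9 ε) (P.s10 ε), U s = VJ s := fun s hs => pw3 O.o89 E2 hs.1 hs.2
  have U4 : ∀ s ∈ Icc (P.s10 ε) (P.s11 ε), U s = VR s :=
    fun s hs => pw4 O.o89 O.o910 E3 hs.1 hs.2
  have U5 : ∀ s ∈ Icc (P.s11 ε) (P.s14 ε), U s = VE s :=
    fun s hs => pw5 O.o89 O.o910 O.o1011 E4 hs.1
  -- positivity on the pieces
  have bA : ∀ s ∈ Icc (P.s5 ε) (P.s8 ε), 0 < VA s := by
    intro s hs
    have a1 : 0 ≤ - rs h (P.s8 ε) s := by linarith [rs_nonpos hh hpos hs.2]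
    have a3 := ds_nonneg hh hpos (P.s8 ε) s
    have a7 : VA s = v + F2 * (- rs h (P.s8 ε) s) + L * ds h (P.s8 ε) s := by
      simp only [hVA, vl]; ring
    rw [a7]
    positivity
  have bQ : ∀ t ∈ Icc 0 P.τ, 0 < q t := fun t ht =>
    PF.pos _ (by linarith [ht.2]) (by linarith [ht.1])
  have bJ : ∀ s ∈ Icc (P.s9 ε) (P.s10 ε), r ≤ VJ s ∧ VJ s ≤ r + L * ε ^ 4 := by
    intro s hs
    have a3 := ds_nonneg hh hpos (P.s9 ε) s
    have a4 : ds h (P.s9 ε) s ≤ ε ^ 4 := (ds_mono hh hpos hs.1 hs.2).trans dJJ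
    have a7 : VJ s = r + L * ds h (P.s9 ε) s := by
      simp only [hVJ, vl]; ring
    have a5 := mul_le_mul_of_nonneg_left a4 hL.le
    have a6 : 0 ≤ L * ds h (P.s9 ε) s := by positivity
    rw [a7]
    constructor <;> linarith
  have hw0r := bJ (P.s10 ε) ⟨O.o910.le, le_rfl⟩
  rw [← hw0] at hw0r
  have bR : ∀ s ∈ Icc (P.s10 ε) (P.s11 ε), r ≤ VR s ∧
      VR s ≤ r + (2 * L * ε ^ 4 + Fh * ε ^ 2) := by
    intro s hs
    have a1 : 0 ≤ rs h (P.s10 ε) s := rs_nonneg hh hpos hs.1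
    have a2 : rs h (P.s10 ε) s ≤ ε ^ 2 := (rs_mono hh hpos hs.2).trans rRR
    have a3 := ds_nonneg hh hpos (P.s10 ε) s
    have a4 : ds h (P.s10 ε) s ≤ ε ^ 2 := (ds_mono hh hpos hs.1 hs.2).trans dRR
    have a7 : VR s = w0 + L * mJ * rs h (P.s10 ε) s + Fh * ds h (P.s10 ε) s := by
      simp only [hVR, vl]; ring
    have a5 := mul_le_mul_of_nonneg_left a4 f4.le
    have a6 : 0 ≤ Fh * ds h (P.s10 ε) s := by positivity
    have a8 : mJ * rs h (P.s10 ε) s ≤ ε ^ 2 * ε ^ 2 := mul_le_mul mJJ a2 a1 (by positivity)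
    have a9 := mul_le_mul_of_nonneg_left a8 hL.le
    have a10 : 0 ≤ L * (mJ * rs h (P.s10 ε) s) := by positivity
    have a11 : L * mJ * rs h (P.s10 ε) s = L * (mJ * rs h (P.s10 ε) s) := mul_assoc _ _ _
    have a12 : L * (ε ^ 2 * ε ^ 2) = L * ε ^ 4 := by ring
    rw [a7, a11]
    rw [a12] at a9
    constructor <;> linarith
  have hwr := bR (P.s11 ε) ⟨O.o1011.le, le_rfl⟩
  rw [← hw] at hwr
  have hFEF : L * mJ + Fh ≤ FE := by
    rw [hFE, le_div_iff₀ hrEpos]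
    have h1 : (L * mJ + Fh) * rE' ≤ (L * ε ^ 2 + Fh) * ((1 + 2 * ε ^ 2) / P.a) := by
      refine mul_le_mul ?_ rE.2 hrEpos.le (by positivity)
      have := mul_le_mul_of_nonneg_left mJJ hL.le
      linarith
    have h2 : (L * ε ^ 2 + Fh) * ((1 + 2 * ε ^ 2) / P.a)
        ≤ x' - r - (2 * L * ε ^ 4 + Fh * ε ^ 2 + L * DE P ε) := by
      rw [← mul_div_assoc, div_le_iff₀ ha, mul_comm _ P.a, mul_sub]
      linarith
    have h3 := mul_le_mul_of_nonneg_left dEE hL.le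
    linarith [hwr.2]
  have hmJL : 0 ≤ L * mJ := by positivity
  have hFE0 : 0 < FE := by linarith
  have bE : ∀ s ∈ Icc (P.s11 ε) (P.s14 ε), 0 < VE s := by
    intro s hs
    have a1 : 0 ≤ rs h (P.s11 ε) s := rs_nonneg hh hpos hs.1
    have a3 := ds_nonneg hh hpos (P.s11 ε) s
    have a7 : VE s = w + FE * rs h (P.s11 ε) s + L * ds h (P.s11 ε) s := by
      simp only [hVE, vl]; ring
    have a8 : 0 < w := by linarith [hwr.1]
    rw [a7]
    positivity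
  have hE14 : VE (P.s14 ε) = x' := by
    have a7 : VE (P.s14 ε) = w + FE * rE' + L * D' := by
      simp only [hVE, vl, hrE', hDD']; ring
    have a8 : FE * rE' = x' - w - L * D' := by rw [hFE]; field_simp
    rw [a7, a8]; ring
  have hVA5 : VA (P.s5 ε) = y' := by
    have : VA (P.s5 ε) = v + F2 * r2 + L * D := by
      simp only [hVA, vl, hr2, hDD]; ring
    rw [this, hF2r]; ring
  -- derivatives of `q`
  have hqd : ∀ t ∈ Icc 0 P.τ, HasDerivAt q (q' t) t := by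
    intro t ht
    exact (PF.d1 (P.τ + η - t) (by linarith [ht.1])).comp_const_sub (P.τ + η) t
  have hqd' : ∀ t ∈ Icc 0 P.τ, HasDerivAt q' (-(L * gg P.p (q t))) t := by
    intro t ht
    have h1 := ((PF.d2 (P.τ + η - t) (by linarith [ht.1])).comp_const_sub (P.τ + η) t).neg
    refine h1.congr_deriv ?_
    rw [gg_of_nonneg hp0 (bQ t ht).le]
    ring
  -- the pieces
  have pA : Piece P.p L h (fun s => - U s) (fun s => - VA s)
      (fun s => - fl h (P.s8 ε) (-F2) (-L) s) (fun _ => -(-L)) (P.s5 ε) (P.s8 ε) := by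
    refine piece_const_neg hh hpos (O.o56.trans (O.o67.trans O.o78)) U1 fun s hs => ?_
    rw [U1 s hs]
    have := mul_le_mul_of_nonneg_left (neg_one_le_gg hp0 hp1 (bA s hs).le) hL.le
    linarith
  have pQ : Piece P.p L h (fun s => - U s) (fun s => -q (s - P.s8 ε))
      (fun s => ε * (-q' (s - P.s8 ε))) (fun s => L * gg P.p (-q (s - P.s8 ε)))
      (P.s8 ε) (P.s8 ε + P.τ) := by
    refine piece_Q_neg hp0 hε hτ (fun s hs => hR.hQ s (by rwa [hs9])) (fun s hs => ?_) hqd hqd'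
    exact U2 s (by rwa [hs9])
  rw [← hs9] at pQ
  have pJ : Piece P.p L h (fun s => - U s) (fun s => - VJ s)
      (fun s => - fl h (P.s9 ε) 0 (-L) s) (fun _ => -(-L)) (P.s9 ε) (P.s10 ε) := by
    refine piece_const_neg hh hpos O.o910 U3 fun s hs => ?_
    rw [U3 s hs]
    have := (bJ s hs).1
    have := mul_le_mul_of_nonneg_left (neg_one_le_gg hp0 hp1 (by linarith : 0 ≤ VJ s)) hL.le
    linarith
  have pR : Piece P.p L h (fun s => - U s) (fun s => - VR s)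
      (fun s => - fl h (P.s10 ε) (L * mJ) (-Fh) s) (fun _ => -(-Fh)) (P.s10 ε) (P.s11 ε) := by
    refine piece_const_neg hh hpos O.o1011 U4 fun s hs => ?_
    rw [U4 s hs]
    obtain ⟨b1, b2⟩ := bR s hs
    refine hδ _ ?_
    rw [abs_of_nonneg (by linarith)]
    linarith
  have pE : Piece P.p L h (fun s => - U s) (fun s => - VE s)
      (fun s => - fl h (P.s11 ε) FE (-L) s) (fun _ => -(-L)) (P.s11 ε) (P.s14 ε) := by
    refine piece_const_neg hh hpos (O.o1112.trans (O.o1213.trans O.o1314)) U5 fun s hs => ?_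
    rw [U5 s hs]
    have := mul_le_mul_of_nonneg_left (neg_one_le_gg hp0 hp1 (bE s hs).le) hL.le
    linarith
  refine ⟨U, super_of_pieces P hh hpos pA pQ pJ pR pE ?_ ?_ ?_ ?_, ?_, ?_, ?_⟩
  · simp only [sub_self, fl_self, q0', neg_neg]
    exact hF2v
  · simp only [s89 P ε, fl_self, qτ', neg_neg, neg_zero]
    positivity
  · simp only [fl_self]
    simp only [fl, hmJ]
    linarith
  · simp only [fl_self]
    simp only [fl, msR hε hR]
    linarith
  · rw [U5 _ ⟨(O.o1112.trans (O.o1213.trans O.o1314)).le, le_rfl⟩, hE14]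
  · rw [U1 _ ⟨le_rfl, (O.o56.trans (O.o67.trans O.o78)).le⟩, hVA5]
  · intro s hs
    rcases le_total s (P.s8 ε) with h1 | h1
    · rw [U1 s ⟨hs.1, h1⟩]; exact bA s ⟨hs.1, h1⟩
    rcases le_total s (P.s9 ε) with h2 | h2
    · rw [U2 s ⟨h1, h2⟩]
      exact bQ _ ⟨by linarith, by linarith⟩
    rcases le_total s (P.s10 ε) with h3 | h3
    · rw [U3 s ⟨h2, h3⟩]
      linarith [(bJ s ⟨h2, h3⟩).1]
    rcases le_total s (P.s11 ε) with h4 | h4
    · rw [U4 s ⟨h3, h4⟩]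
      linarith [(bR s ⟨h3, h4⟩).1]
    · rw [U5 s ⟨h4, hs.2⟩]; exact bE s ⟨h4, hs.2⟩

end Pool.Agent.Lib.MP_e46711_an.H74
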