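import Pool.Agent.Lib.MP_e46711_an.H74.Prof

/-!
# MP_e46711_an, module C5b: barriers built from fluxes
-/

open Set Filter Topology MeasureTheory

namespace Pool.Agent.Lib.MP_e46711_an.H74

open Pool.Agent.Lib.MP_e46711_an

/-! ## the signed power and the nonlinearity -/

lemma sp_of_nonneg {p x : ℝ} (hp : 0 < p) (hx : 0 ≤ x) : sp p x = x ^ p := by
  unfold sp
  rcases hx.eq_or_lt with h | h
  · simp [← h, Real.zero_rpow hp.ne']
  · simp [sign_pos h, abs_of_pos h]

lemma sp_neg (p x : ℝ) : sp p (-x) = - sp p x := by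
  unfold sp
  rw [abs_neg, Left.sign_neg]
  simp

lemma gg_neg (p x : ℝ) : gg p (-x) = - gg p x := by
  unfold gg
  rw [sp_neg]; ring

lemma gg_of_nonneg {p x : ℝ} (hp : 0 < p) (hx : 0 ≤ x) : gg p x = x - x ^ p := by
  unfold gg
  rw [sp_of_nonneg hp hx]

lemma abs_sp {p : ℝ} (hp : 0 < p) (x : ℝ) : |sp p x| = |x| ^ p := by
  unfold sp
  rcases lt_trichotomy x 0 with h | h | h
  · simp [sign_neg h, abs_of_nonneg (Real.rpow_nonneg (abs_nonneg x) p)]
  · simp [h, Real.zero_rpow hp.ne']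
  · simp [sign_pos h, abs_of_nonneg (Real.rpow_nonneg (abs_nonneg x) p)]

lemma rpow_le_one_add {p x : ℝ} (hp : 0 < p) (hp1 : p < 1) (hx : 0 ≤ x) : x ^ p ≤ 1 + x := by
  rcases le_total x 1 with h | h
  · have := Real.rpow_le_one hx h hp.le
    linarith
  · have := Real.rpow_le_rpow_of_exponent_le h hp1.le
    rw [Real.rpow_one] at this
    linarith

lemma gg_le {p x B : ℝ} (hp : 0 < p) (hp1 : p < 1) (hx : |x| ≤ B) : gg p x ≤ 1 + 2 * B := by
  unfold gg
  have h1 := abs_sp hp x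
  have h2 := rpow_le_one_add hp hp1 (abs_nonneg x)
  have h3 := neg_abs_le (sp p x)
  have h4 := le_abs_self x
  linarith

lemma neg_one_le_gg {p x : ℝ} (hp : 0 < p) (hp1 : p < 1) (hx : 0 ≤ x) : -1 ≤ gg p x := by
  rw [gg_of_nonneg hp hx]
  have := rpow_le_one_add hp hp1 hx
  linarith

lemma gg_nonpos {p x : ℝ} (hp : 0 < p) (hp1 : p < 1) (hx : 0 ≤ x) (hx1 : x ≤ 1) :
    gg p x ≤ 0 := by
  rw [gg_of_nonneg hp hx]
  rcases hx.eq_or_lt with h | h
  · simp [← h, Real.zero_rpow hp.ne']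
  · have := Real.rpow_le_rpow_of_exponent_ge h hx1 hp1.le
    rw [Real.rpow_one] at this
    linarith

lemma continuous_sp {p : ℝ} (hp : 0 < p) : Continuous (sp p) := by
  have h : sp p = fun x => max x 0 ^ p - max (-x) 0 ^ p := by
    funext x
    rcases le_total 0 x with h | h
    · rw [sp_of_nonneg hp h, max_eq_left h, max_eq_right (by linarith), Real.zero_rpow hp.ne',
        sub_zero]
    · have h1 := sp_of_nonneg hp (neg_nonneg.2 h)
      rw [sp_neg] at h1
      rw [max_eq_right h, max_eq_left (by linarith), Real.zero_rpow hp.ne', ← h1]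
      ring
  rw [h]
  refine Continuous.sub ?_ ?_
  · exact (continuous_id.max continuous_const).rpow_const fun _ => Or.inr hp.le
  · exact (continuous_neg.max continuous_const).rpow_const fun _ => Or.inr hp.le

lemma continuous_gg {p : ℝ} (hp : 0 < p) : Continuous (gg p) :=
  continuous_id.sub (continuous_sp hp)

/-! ## pieces -/

/-- gluing of Lipschitz functions -/
lemma Lip.glue {u : ℝ → ℝ} {a b c : ℝ} (hab : a ≤ b) (hbc : b ≤ c) (h1 : Lip u a b)
    (h2 : Lip u b c) : Lip u a c := by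
  obtain ⟨K1, h1⟩ := h1
  obtain ⟨K2, h2⟩ := h2
  refine ⟨max K1 K2, LipschitzOnWith.of_dist_le_mul ?_⟩
  have key : ∀ x ∈ Icc a c, ∀ y ∈ Icc a c, x ≤ y →
      dist (u x) (u y) ≤ (max K1 K2 : NNReal) * dist x y := by
    intro x hx y hy hxy
    have hK1 : (K1 : ℝ) ≤ (max K1 K2 : NNReal) := by exact_mod_cast le_max_left _ _
    have hK2 : (K2 : ℝ) ≤ (max K1 K2 : NNReal) := by exact_mod_cast le_max_right _ _
    rcases le_total y b with h | h
    · refine (h1.dist_le_mul x ⟨hx.1, hxy.trans h⟩ y ⟨hy.1, h⟩).trans ?_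
      gcongr
    · rcases le_total b x with h' | h'
      · refine (h2.dist_le_mul x ⟨h', hx.2⟩ y ⟨h, hy.2⟩).trans ?_
        gcongr
      · have e1 := h1.dist_le_mul x ⟨hx.1, h'⟩ b ⟨hab, le_rfl⟩
        have e2 := h2.dist_le_mul b ⟨le_rfl, hbc⟩ y ⟨h, hy.2⟩
        have e3 : dist x b = b - x := by rw [Real.dist_eq, abs_sub_comm, abs_of_nonneg]; linarith
        have e4 : dist b y = y - b := by rw [Real.dist_eq, abs_sub_comm, abs_of_nonneg]; linarith
        have e5 : dist x y = y - x := by rw [Real.dist_eq, abs_sub_comm, abs_of_nonneg]; linarith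
        rw [e3] at e1
        rw [e4] at e2
        rw [e5]
        have e6 := dist_triangle (u x) (u b) (u y)
        have e7 : (K1 : ℝ) * (b - x) ≤ (max K1 K2 : NNReal) * (b - x) :=
          mul_le_mul_of_nonneg_right hK1 (by linarith)
        have e8 : (K2 : ℝ) * (y - b) ≤ (max K1 K2 : NNReal) * (y - b) :=
          mul_le_mul_of_nonneg_right hK2 (by linarith)
        nlinarith
  intro x hx y hy
  rcases le_total x y with h | h
  · exact key x hx y hy h
  · rw [dist_comm (u x), dist_comm x]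
    exact key y hy x hx h

lemma Lip.mono {u : ℝ → ℝ} {a b a' b' : ℝ} (h : Lip u a b) (ha : a ≤ a') (hb : b' ≤ b) :
    Lip u a' b' := by
  obtain ⟨K, hK⟩ := h
  exact ⟨K, hK.mono (Icc_subset_Icc ha hb)⟩

/-- a piece of a barrier -/
structure Piece (p L : ℝ) (h U V Φ β : ℝ → ℝ) (a b : ℝ) : Prop where
  ab : a < b
  eq : ∀ s ∈ Icc a b, U s = V s
  dV : ∀ s ∈ Icc a b, HasDerivAt V (Φ s / h s) s
  dΦ : ∀ s ∈ Icc a b, HasDerivAt Φ (-(h s * β s)) s
  cβ : ContinuousOn β (Icc a b)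
  ge : ∀ s ∈ Icc a b, L * gg p (U s) ≤ β s

namespace Piece
variable {p L : ℝ} {h U V Φ β : ℝ → ℝ} {a b : ℝ}

lemma contV (P : Piece p L h U V Φ β a b) : ContinuousOn V (Icc a b) :=
  fun s hs => (P.dV s hs).continuousAt.continuousWithinAt

lemma contΦ (P : Piece p L h U V Φ β a b) : ContinuousOn Φ (Icc a b) :=
  fun s hs => (P.dΦ s hs).continuousAt.continuousWithinAt

lemma lip (P : Piece p L h U V Φ β a b) (hh : Continuous h) (hpos : ∀ s, 0 < h s) :
    Lip U a b := by
  have h1 : ContinuousOn (fun s => Φ s / h s) (Icc a b) :=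
    P.contΦ.div hh.continuousOn fun s _ => (hpos s).ne'
  obtain ⟨C, hC⟩ := isCompact_Icc.exists_bound_of_continuousOn h1
  have hC' : ∀ s ∈ Icc a b, ‖Φ s / h s‖₊ ≤ C.toNNReal := by
    intro s hs
    rw [← NNReal.coe_le_coe, coe_nnnorm, Real.coe_toNNReal']
    exact (hC s hs).trans (le_max_left _ _)
  refine ⟨C.toNNReal, ?_⟩
  have h2 := (convex_Icc a b).lipschitzOnWith_of_nnnorm_hasDerivWithin_le
    (f := V) (f' := fun s => Φ s / h s) (C := C.toNNReal)
    (fun s hs => (P.dV s hs).hasDerivWithinAt) hC'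
  intro x hx y hy
  rw [P.eq x hx, P.eq y hy]
  exact h2 hx hy

/-- integration by parts on a piece -/
lemma ineq (P : Piece p L h U V Φ β a b) (hp : 0 < p) (hh : Continuous h)
    (hpos : ∀ s, 0 < h s) {Z : ℝ → ℝ} (hZ : Lip Z a b) (hZ0 : ∀ s, 0 ≤ Z s) :
    Φ b * Z b - Φ a * Z a + L * ∫ s in a..b, h s * (gg p (U s) * Z s)
      ≤ ∫ s in a..b, h s * (deriv U s * deriv Z s) := by
  have hab := P.ab.le
  obtain ⟨K, hK⟩ := hZ
  have hZc : ContinuousOn Z (Icc a b) := hK.continuousOn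
  have acZ : AbsolutelyContinuousOnInterval Z a b := by
    refine LipschitzOnWith.absolutelyContinuousOnInterval (K := K) ?_
    rwa [uIcc_of_le hab]
  obtain ⟨C, hC⟩ : ∃ C, ∀ s ∈ Icc a b, ‖-(h s * β s)‖ ≤ C :=
    isCompact_Icc.exists_bound_of_continuousOn (hh.continuousOn.mul P.cβ).neg
  have hΦL : LipschitzOnWith C.toNNReal Φ (Icc a b) := by
    refine (convex_Icc a b).lipschitzOnWith_of_nnnorm_hasDerivWithin_le
      (f' := fun s => -(h s * β s)) (fun s hs => (P.dΦ s hs).hasDerivWithinAt) ?_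
    intro s hs
    rw [← NNReal.coe_le_coe, coe_nnnorm, Real.coe_toNNReal']
    exact (hC s hs).trans (le_max_left _ _)
  have acΦ : AbsolutelyContinuousOnInterval Φ a b := by
    refine LipschitzOnWith.absolutelyContinuousOnInterval (K := C.toNNReal) ?_
    rwa [uIcc_of_le hab]
  have ibp := acΦ.integral_mul_deriv_eq_deriv_mul acZ
  -- the derivative of `U`
  have hae : ∀ᵐ s : ℝ, s ∈ uIoc a b → s ∈ Ioo a b := by
    have h1 : ∀ᵐ s : ℝ, s ≠ b := by simp [ae_iff, measure_singleton]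
    filter_upwards [h1] with s hs hs'
    rw [uIoc_of_le hab] at hs'
    exact ⟨hs'.1, lt_of_le_of_ne hs'.2 hs⟩
  have e1 : ∫ s in a..b, h s * (deriv U s * deriv Z s) = ∫ s in a..b, Φ s * deriv Z s := by
    refine intervalIntegral.integral_congr_ae ?_
    filter_upwards [hae] with s hs hs'
    have hs2 := hs hs'
    have h2 : HasDerivAt U (Φ s / h s) s := by
      refine (P.dV s (Ioo_subset_Icc_self hs2)).congr_of_eventuallyEq ?_
      filter_upwards [Ioo_mem_nhds hs2.1 hs2.2] with r hr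
      exact P.eq r (Ioo_subset_Icc_self hr)
    rw [h2.deriv]
    have := (hpos s).ne'
    field_simp
  have e2 : ∫ s in a..b, deriv Φ s * Z s = - ∫ s in a..b, h s * (β s * Z s) := by
    rw [← intervalIntegral.integral_neg]
    refine intervalIntegral.integral_congr_ae (Eventually.of_forall fun s hs => ?_)
    rw [uIoc_of_le hab] at hs
    rw [(P.dΦ s (Ioc_subset_Icc_self hs)).deriv]
    ring
  have e3 : L * ∫ s in a..b, h s * (gg p (U s) * Z s) ≤ ∫ s in a..b, h s * (β s * Z s) := by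
    rw [← intervalIntegral.integral_const_mul]
    refine intervalIntegral.integral_mono_on hab ?_ ?_ ?_
    · refine ContinuousOn.intervalIntegrable ?_
      rw [uIcc_of_le hab]
      have hUc : ContinuousOn U (Icc a b) := P.contV.congr P.eq
      exact continuousOn_const.mul (hh.continuousOn.mul
        (((continuous_gg hp).comp_continuousOn hUc).mul hZc))
    · refine ContinuousOn.intervalIntegrable ?_
      rw [uIcc_of_le hab]
      exact hh.continuousOn.mul (P.cβ.mul hZc)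
    · intro s hs
      have h1 := P.ge s hs
      have h2 := mul_le_mul_of_nonneg_right h1 (hZ0 s)
      have h3 := mul_le_mul_of_nonneg_left h2 (hpos s).le
      calc L * (h s * (gg p (U s) * Z s)) = h s * (L * gg p (U s) * Z s) := by ring
        _ ≤ _ := h3
  rw [e1, ibp, e2]
  linarith

lemma intble (P : Piece p L h U V Φ β a b) (hpos : ∀ s, 0 < h s) {Z : ℝ → ℝ}
    (hZ : Lip Z a b) :
    IntervalIntegrable (fun s => h s * (deriv U s * deriv Z s)) volume a b := by
  have hab := P.ab.le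
  obtain ⟨K, hK⟩ := hZ
  have acZ : AbsolutelyContinuousOnInterval Z a b := by
    refine LipschitzOnWith.absolutelyContinuousOnInterval (K := K) ?_
    rwa [uIcc_of_le hab]
  have h1 : IntervalIntegrable (fun s => Φ s * deriv Z s) volume a b := by
    refine acZ.intervalIntegrable_deriv.continuousOn_mul ?_
    rw [uIcc_of_le hab]
    exact P.contΦ
  refine h1.congr_ae ?_
  rw [Filter.EventuallyEq, ae_restrict_iff' measurableSet_uIoc]
  have h1 : ∀ᵐ s : ℝ, s ≠ b := by simp [ae_iff, measure_singleton]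
  filter_upwards [h1] with s hs hs'
  rw [uIoc_of_le hab] at hs'
  have hs2 : s ∈ Ioo a b := ⟨hs'.1, lt_of_le_of_ne hs'.2 hs⟩
  have h2 : HasDerivAt U (Φ s / h s) s := by
    refine (P.dV s (Ioo_subset_Icc_self hs2)).congr_of_eventuallyEq ?_
    filter_upwards [Ioo_mem_nhds hs2.1 hs2.2] with r hr
    exact P.eq r (Ioo_subset_Icc_self hr)
  rw [h2.deriv]
  have := (hpos s).ne'
  field_simp

lemma intble' (P : Piece p L h U V Φ β a b) (hp : 0 < p) (hh : Continuous h) {Z : ℝ → ℝ}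
    (hZ : Lip Z a b) :
    IntervalIntegrable (fun s => h s * (gg p (U s) * Z s)) volume a b := by
  obtain ⟨K, hK⟩ := hZ
  have hZc : ContinuousOn Z (Icc a b) := hK.continuousOn
  refine ContinuousOn.intervalIntegrable ?_
  rw [uIcc_of_le P.ab.le]
  have hUc : ContinuousOn U (Icc a b) := P.contV.congr P.eq
  exact hh.continuousOn.mul (((continuous_gg hp).comp_continuousOn hUc).mul hZc)

end Piece

/-- five pieces with fluxes jumping down make a supersolution -/
theorem super_of_pieces (P : Par) {ε L : ℝ} {h U : ℝ → ℝ} (hh : Continuous h)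
    (hpos : ∀ s, 0 < h s) {V1 V2 V3 V4 V5 Φ1 Φ2 Φ3 Φ4 Φ5 β1 β2 β3 β4 β5 : ℝ → ℝ}
    (A : Piece P.p L h U V1 Φ1 β1 (P.s5 ε) (P.s8 ε))
    (Q : Piece P.p L h U V2 Φ2 β2 (P.s8 ε) (P.s9 ε))
    (J : Piece P.p L h U V3 Φ3 β3 (P.s9 ε) (P.s10 ε))
    (R : Piece P.p L h U V4 Φ4 β4 (P.s10 ε) (P.s11 ε))
    (E : Piece P.p L h U V5 Φ5 β5 (P.s11 ε) (P.s14 ε))
    (j8 : Φ2 (P.s8 ε) ≤ Φ1 (P.s8 ε)) (j9 : Φ3 (P.s9 ε) ≤ Φ2 (P.s9 ε))
    (j10 : Φ4 (P.s10 ε) ≤ Φ3 (P.s10 ε)) (j11 : Φ5 (P.s11 ε) ≤ Φ4 (P.s11 ε)) :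
    P.Super ε L h U := by
  have l1 := A.lip hh hpos
  have l2 := Q.lip hh hpos
  have l3 := J.lip hh hpos
  have l4 := R.lip hh hpos
  have l5 := E.lip hh hpos
  have a1 := A.ab
  have a2 := Q.ab
  have a3 := J.ab
  have a4 := R.ab
  have a5 := E.ab
  refine ⟨Lip.glue (by linarith) a5.le (Lip.glue (by linarith) a4.le (Lip.glue (by linarith) a3.le
    (Lip.glue a1.le a2.le l1 l2) l3) l4) l5, ?_⟩
  intro Z hZ hZ0 z5 z14
  have zA := Lip.mono hZ le_rfl (by linarith : P.s8 ε ≤ P.s14 ε)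
  have zQ := Lip.mono hZ (by linarith : P.s5 ε ≤ P.s8 ε) (by linarith : P.s9 ε ≤ P.s14 ε)
  have zJ := Lip.mono hZ (by linarith : P.s5 ε ≤ P.s9 ε) (by linarith : P.s10 ε ≤ P.s14 ε)
  have zR := Lip.mono hZ (by linarith : P.s5 ε ≤ P.s10 ε) (by linarith : P.s11 ε ≤ P.s14 ε)
  have zE := Lip.mono hZ (by linarith : P.s5 ε ≤ P.s11 ε) le_rfl
  have i1 := A.ineq P.hp0 hh hpos zA hZ0
  have i2 := Q.ineq P.hp0 hh hpos zQ hZ0
  have i3 := J.ineq P.hp0 hh hpos zJ hZ0
  have i4 := R.ineq P.hp0 hh hpos zR hZ0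
  have i5 := E.ineq P.hp0 hh hpos zE hZ0
  have c1 := A.intble hpos zA
  have c2 := Q.intble hpos zQ
  have c3 := J.intble hpos zJ
  have c4 := R.intble hpos zR
  have c5 := E.intble hpos zE
  have d1 := A.intble' P.hp0 hh zA
  have d2 := Q.intble' P.hp0 hh zQ
  have d3 := J.intble' P.hp0 hh zJ
  have d4 := R.intble' P.hp0 hh zR
  have d5 := E.intble' P.hp0 hh zE
  rw [← intervalIntegral.integral_add_adjacent_intervals (c1.trans (c2.trans (c3.trans c4))) c5,
    ← intervalIntegral.integral_add_adjacent_intervals (c1.trans (c2.trans c3)) c4,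
    ← intervalIntegral.integral_add_adjacent_intervals (c1.trans c2) c3,
    ← intervalIntegral.integral_add_adjacent_intervals c1 c2,
    ← intervalIntegral.integral_add_adjacent_intervals (d1.trans (d2.trans (d3.trans d4))) d5,
    ← intervalIntegral.integral_add_adjacent_intervals (d1.trans (d2.trans d3)) d4,
    ← intervalIntegral.integral_add_adjacent_intervals (d1.trans d2) d3,
    ← intervalIntegral.integral_add_adjacent_intervals d1 d2]
  have k8 := mul_le_mul_of_nonneg_right j8 (hZ0 (P.s8 ε))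
  have k9 := mul_le_mul_of_nonneg_right j9 (hZ0 (P.s9 ε))
  have k10 := mul_le_mul_of_nonneg_right j10 (hZ0 (P.s10 ε))
  have k11 := mul_le_mul_of_nonneg_right j11 (hZ0 (P.s11 ε))
  rw [z5] at i1
  rw [z14] at i5
  linarith

end Pool.Agent.Lib.MP_e46711_an.H74
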