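import Pool.Agent.Lib.MP_e46711_an.H74.Est

/-!
# MP_e46711_an, module C5b: the dead barrier
-/

open Set Filter Topology MeasureTheory

namespace Pool.Agent.Lib.MP_e46711_an.H74

open Pool.Agent.Lib.MP_e46711_an

/-- the piece `Q` (here `h = ε`) -/
lemma piece_Q {p L ε τ b : ℝ} {h U q q' : ℝ → ℝ} (hp : 0 < p) (hε : 0 < ε) (hτ : 0 < τ)
    (hh : ∀ s ∈ Icc b (b + τ), h s = ε) (hU : ∀ s ∈ Icc b (b + τ), U s = q (s - b))
    (hq : ∀ t ∈ Icc 0 τ, HasDerivAt q (q' t) t)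
    (hq' : ∀ t ∈ Icc 0 τ, HasDerivAt q' (-(L * gg p (q t))) t) :
    Piece p L h U (fun s => q (s - b)) (fun s => ε * q' (s - b))
      (fun s => L * gg p (q (s - b))) b (b + τ) := by
  have hm : ∀ s ∈ Icc b (b + τ), s - b ∈ Icc 0 τ := fun s hs =>
    ⟨by linarith [hs.1], by linarith [hs.2]⟩
  refine ⟨by linarith, hU, fun s hs => ?_, fun s hs => ?_, ?_, fun s hs => ?_⟩
  · have h1 := (hq (s - b) (hm s hs)).comp_sub_const s b
    rw [hh s hs]
    refine h1.congr_deriv ?_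
    field_simp
  · have h1 := ((hq' (s - b) (hm s hs)).comp_sub_const s b).const_mul ε
    rw [hh s hs]
    refine h1.congr_deriv ?_
    ring
  · have hc : ContinuousOn q (Icc 0 τ) := fun t ht => (hq t ht).continuousAt.continuousWithinAt
    have h2 : ContinuousOn (fun s => q (s - b)) (Icc b (b + τ)) :=
      hc.comp (continuous_id.sub continuous_const).continuousOn hm
    exact continuousOn_const.mul ((continuous_gg hp).comp_continuousOn h2)
  · rw [hU s hs]

lemma piece_Q_neg {p L ε τ b : ℝ} {h U q q' : ℝ → ℝ} (hp : 0 < p) (hε : 0 < ε) (hτ : 0 < τ)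
    (hh : ∀ s ∈ Icc b (b + τ), h s = ε) (hU : ∀ s ∈ Icc b (b + τ), U s = q (s - b))
    (hq : ∀ t ∈ Icc 0 τ, HasDerivAt q (q' t) t)
    (hq' : ∀ t ∈ Icc 0 τ, HasDerivAt q' (-(L * gg p (q t))) t) :
    Piece p L h (fun s => - U s) (fun s => -q (s - b)) (fun s => ε * (-q' (s - b)))
      (fun s => L * gg p (-q (s - b))) b (b + τ) := by
  refine piece_Q (q := fun t => -q t) (q' := fun t => -q' t) hp hε hτ hh
    (fun s hs => by rw [hU s hs]) (fun t ht => (hq t ht).neg) (fun t ht => ?_)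
  refine (hq' t ht).neg.congr_deriv ?_
  rw [gg_neg]; ring

lemma tau_lt (P : Par) {L : ℝ} (hL : 0 < L) (hL2 : L ≤ P.L2) : P.τ < profT P.p L := by
  unfold profT
  have h1 : 0 < √L := Real.sqrt_pos.2 hL
  have h2 : √L ≤ √P.L2 := Real.sqrt_le_sqrt hL2
  have h3 := P.hτ2
  have h4 := P.hτ
  have h5 := P.hp0
  have h6 := P.hp1
  rw [lt_div_iff₀ (mul_pos (by linarith) h1)]
  have h7 : √L * P.τ ≤ √P.L2 * P.τ := mul_le_mul_of_nonneg_right h2 h4.le
  have h8 : (1 - P.p) * (√L * P.τ) ≤ 1 * (√L * P.τ) :=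
    mul_le_mul_of_nonneg_right (by linarith) (by positivity)
  have h9 := Real.pi_pos
  nlinarith

lemma rpow_gt {p r : ℝ} (hp1 : p < 1) (hr0 : 0 < r) (hr1 : r < 1) : r < r ^ p := by
  have := Real.rpow_lt_rpow_of_exponent_gt hr0 hr1 hp1
  rwa [Real.rpow_one] at this

lemma vl_self {h : ℝ → ℝ} (b v F al : ℝ) : vl h b v F al b = v := by
  simp [vl, rs, ds]

lemma fl_self {h : ℝ → ℝ} (b F al : ℝ) : fl h b F al b = F := by
  simp [fl, ms]

lemma tendsto_DA (P : Par) : Tendsto (DA P) (𝓝[>] 0) (𝓝 0) := by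
  have h1 : Continuous (DA P) := by unfold DA; fun_prop
  have h2 := h1.tendsto 0
  rw [show DA P 0 = 0 by simp [DA]] at h2
  exact h2.mono_left nhdsWithin_le_nhds

lemma tendsto_DE (P : Par) : Tendsto (DE P) (𝓝[>] 0) (𝓝 0) := by
  have h1 : Continuous (DE P) := by unfold DE; fun_prop
  have h2 := h1.tendsto 0
  rw [show DE P 0 = 0 by simp [DE]] at h2
  exact h2.mono_left nhdsWithin_le_nhds

lemma mix01 {w x θ : ℝ} (hw0 : 0 ≤ w) (hw1 : w ≤ 1) (hx0 : 0 ≤ x) (hx1 : x ≤ 1)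
    (t0 : 0 ≤ θ) (t1 : θ ≤ 1) : 0 ≤ w + (x - w) * θ ∧ w + (x - w) * θ ≤ 1 := by
  have h : w + (x - w) * θ = (1 - θ) * w + θ * x := by ring
  have a1 : 0 ≤ 1 - θ := sub_nonneg.2 t1
  have a2 := mul_nonneg a1 hw0
  have a3 := mul_nonneg t0 hx0
  have a4 := mul_le_mul_of_nonneg_left hw1 a1
  have a5 := mul_le_mul_of_nonneg_left hx1 t0
  rw [h]
  constructor <;> linarith

/-- C5c -/
theorem deadBarrier : DeadBarrier := by
  intro P x y hD hx hy
  obtain ⟨hx1, dR, dr, hdR, hdr, hsum, hr1, hRa, hLc⟩ := hD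
  have hp0 := P.hp0
  have hp1 := P.hp1
  have hc := P.hc
  have hτ := P.hτ
  have hL : 0 < P.L1 := P.hL0.trans P.hL01
  have hL2 : P.L1 < P.L2 := P.hL12
  have ha : 0 < P.a := by linarith [P.ha]
  have PF := profFacts (p := P.p) hp0 hp1 hL
  have hτT := tau_lt P hL hL2.le
  set L := P.L1 with hLdef
  have hr0 : 0 < prof P.p L dR := PF.pos dR hdR (by linarith)
  have hr0' : 0 < prof' P.p L dR := PF.pos' dR hdR (by linarith)
  have hv0 : 0 < prof P.p L dr := PF.pos dr hdr (by linarith)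
  have hv0' : 0 < prof' P.p L dr := PF.pos' dr hdr (by linarith)
  set r := prof P.p L dR with hr
  set v := prof P.p L dr with hv
  set v' := prof' P.p L dr with hv'
  -- choice of `ρ`
  obtain ⟨ρ, ⟨⟨e1, e2⟩, e3⟩, hρ⟩ : ∃ ρ, ((x + ρ < 1 ∧ P.a * (x + ρ - r) < L * (r ^ P.p - r)) ∧
      P.c * (y + ρ - v) < v') ∧ 0 < ρ := by
    have t1 : ∀ᶠ ρ in 𝓝 (0:ℝ), x + ρ < 1 :=
      ((by fun_prop : Continuous fun ρ : ℝ => x + ρ).tendsto' 0 x (by simp)).eventually_lt_const hx1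
    have t2 : ∀ᶠ ρ in 𝓝 (0:ℝ), P.a * (x + ρ - r) < L * (r ^ P.p - r) :=
      ((by fun_prop : Continuous fun ρ : ℝ => P.a * (x + ρ - r)).tendsto' 0 (P.a * (x - r))
        (by simp)).eventually_lt_const hRa
    have t3 : ∀ᶠ ρ in 𝓝 (0:ℝ), P.c * (y + ρ - v) < v' :=
      ((by fun_prop : Continuous fun ρ : ℝ => P.c * (y + ρ - v)).tendsto' 0 (P.c * (y - v))
        (by simp)).eventually_lt_const hLc
    exact ((((t1.and t2).and t3).filter_mono nhdsWithin_le_nhds).and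
      (self_mem_nhdsWithin : ∀ᶠ ρ in 𝓝[>] (0:ℝ), 0 < ρ)).exists
  set x' := x + ρ with hx'
  set y' := y + ρ with hy'
  have hx'0 : 0 ≤ x' := by linarith
  have hy'0 : 0 ≤ y' := by linarith
  -- choice of `Fh`
  have hrr := rpow_gt hp1 hr0 hr1
  obtain ⟨Fh, f1, f2⟩ := exists_between (max_lt e2 (mul_pos hL (by linarith) :
    (0:ℝ) < L * (r ^ P.p - r)))
  have f3 : P.a * (x' - r) < Fh := (le_max_left _ _).trans_lt f1
  have f4 : 0 < Fh := (le_max_right _ _).trans_lt f1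
  -- constants
  set B := v + y' + 1 with hB
  set al := L * (1 + 2 * B) with hal
  have hB1 : 1 ≤ B := by linarith
  have hal0 : 0 < al := by positivity
  -- conditions on `ε`
  obtain ⟨δ, hδ0, hδ⟩ : ∃ δ > 0, ∀ u, |u - r| < δ → L * gg P.p u ≤ -Fh := by
    have t1 : ∀ᶠ u in 𝓝 r, L * gg P.p u < -Fh := by
      have hcg : Continuous fun u => L * gg P.p u := continuous_const.mul (continuous_gg hp0)
      refine (hcg.tendsto r).eventually_lt_const ?_
      rw [gg_of_nonneg hp0 hr0.le]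
      linarith
    obtain ⟨δ, h1, h2⟩ := Metric.eventually_nhds_iff.1 t1
    exact ⟨δ, h1, fun u hu => (h2 (by rwa [Real.dist_eq])).le⟩
  have g1 : ∀ᶠ ε in 𝓝[>] (0:ℝ), al * DA P ε < 1 := by
    have := (tendsto_DA P).const_mul al
    rw [mul_zero] at this
    exact this.eventually_lt_const one_pos
  have g2 : ∀ᶠ ε in 𝓝[>] (0:ℝ), P.c * (y' - v + al * DA P ε) < v' := by
    have := (((tendsto_DA P).const_mul al).const_add (y' - v)).const_mul P.c
    rw [mul_zero, add_zero] at this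
    exact this.eventually_lt_const e3
  have g3 : ∀ᶠ ε in 𝓝[>] (0:ℝ), Fh * ε ^ 2 < min δ (1 - r) := by
    have : Tendsto (fun ε : ℝ => Fh * ε ^ 2) (𝓝[>] 0) (𝓝 0) :=
      ((by fun_prop : Continuous fun ε : ℝ => Fh * ε ^ 2).tendsto' 0 0 (by simp)).mono_left
        nhdsWithin_le_nhds
    exact this.eventually_lt_const (lt_min hδ0 (by linarith))
  refine ⟨ρ, hρ, ?_⟩
  filter_upwards [self_mem_nhdsWithin, g1, g2, g3] with ε hε k1 k2 k3 h hR
  replace hε : 0 < ε := hε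
  have hh := hR.smooth.continuous
  have hpos := hR.pos
  have O := ord (P := P) hε
  have rA := resA hε hR
  have dA := dsA hε hR
  have rE := resE hε hR
  have dRR := dsR hε hR
  have dA0 := ds_nonneg hh hpos (P.s8 ε) (P.s5 ε)
  set r2 := - rs h (P.s8 ε) (P.s5 ε) with hr2
  set D := ds h (P.s8 ε) (P.s5 ε) with hDD
  have hr2pos : 0 < r2 := lt_of_lt_of_le (by positivity) rA.1
  have hrEpos : 0 < rs h (P.s11 ε) (P.s14 ε) := lt_of_lt_of_le (by positivity) rE.1
  set F2 := (y' - v + al * D) / r2 with hF2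
  have hF2r : F2 * r2 = y' - v + al * D := by rw [hF2]; field_simp
  have halD : al * D ≤ al * DA P ε := mul_le_mul_of_nonneg_left dA hal0.le
  have halD0 : 0 ≤ al * D := by positivity
  set q : ℝ → ℝ := fun t => prof P.p L (dr - t) + prof P.p L (t - (P.τ - dR)) with hq
  set q' : ℝ → ℝ := fun t => - prof' P.p L (dr - t) + prof' P.p L (t - (P.τ - dR)) with hq'
  set VA := vl h (P.s8 ε) v (-F2) al with hVA
  set VQ : ℝ → ℝ := fun s => q (s - P.s8 ε) with hVQ
  set VJ := vl h (P.s9 ε) r 0 0 with hVJ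
  set VR := vl h (P.s10 ε) r 0 (-Fh) with hVR
  set w := VR (P.s11 ε) with hw
  set FE := (x' - w) / rs h (P.s11 ε) (P.s14 ε) with hFE
  set VE := vl h (P.s11 ε) w FE 0 with hVE
  set U := pw (P.s8 ε) (P.s9 ε) (P.s10 ε) (P.s11 ε) VA VQ VJ VR VE with hU
  -- values at the junctions
  have q0 : q 0 = v := by
    simp only [hq, sub_zero, zero_sub, neg_sub]
    rw [PF.zero (dR - P.τ) (by linarith), add_zero]
  have q0' : q' 0 = - v' := by
    simp only [hq', sub_zero, zero_sub, neg_sub]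
    rw [PF.zero' (dR - P.τ) (by linarith), add_zero]
  have qτ : q P.τ = r := by
    simp only [hq]
    rw [PF.zero (dr - P.τ) (by linarith), zero_add, show P.τ - (P.τ - dR) = dR by ring]
  have qτ' : q' P.τ = prof' P.p L dR := by
    simp only [hq']
    rw [PF.zero' (dr - P.τ) (by linarith), neg_zero, zero_add,
      show P.τ - (P.τ - dR) = dR by ring]
  have hs9 : P.s9 ε = P.s8 ε + P.τ := by linarith [s89 P ε]
  have vJ : ∀ s, VJ s = r := fun s => by simp [hVJ, vl]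
  have E1 : VA (P.s8 ε) = VQ (P.s8 ε) := by
    simp only [hVA, hVQ, vl_self, sub_self, q0]
  have E2 : VQ (P.s9 ε) = VJ (P.s9 ε) := by
    rw [vJ]
    simp only [hVQ]
    rw [s89 P ε, qτ]
  have E3 : VJ (P.s10 ε) = VR (P.s10 ε) := by
    rw [vJ]
    simp only [hVR, vl_self]
  have E4 : VR (P.s11 ε) = VE (P.s11 ε) := by
    simp only [hVE, vl_self, hw]
  have U1 : ∀ s ∈ Icc (P.s5 ε) (P.s8 ε), U s = VA s := fun s hs => pw1 hs.2
  have U2 : ∀ s ∈ Icc (P.s8 ε) (P.s9 ε), U s = VQ s := fun s hs => pw2 E1 hs.1 hs.2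
  have U3 : ∀ s ∈ Icc (P.s9 ε) (P.s10 ε), U s = VJ s := fun s hs => pw3 O.o89 E2 hs.1 hs.2
  have U4 : ∀ s ∈ Icc (P.s10 ε) (P.s11 ε), U s = VR s :=
    fun s hs => pw4 O.o89 O.o910 E3 hs.1 hs.2
  have U5 : ∀ s ∈ Icc (P.s11 ε) (P.s14 ε), U s = VE s :=
    fun s hs => pw5 O.o89 O.o910 O.o1011 E4 hs.1
  -- bound on `A`
  have bA : ∀ s ∈ Icc (P.s5 ε) (P.s8 ε), |VA s| ≤ B := by
    intro s hs
    have a1 : 0 ≤ - rs h (P.s8 ε) s := by linarith [rs_nonpos hh hpos hs.2]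
    have a2 : - rs h (P.s8 ε) s ≤ r2 := by
      have := rs_mono hh hpos (b := P.s8 ε) hs.1
      linarith
    have a3 := ds_nonneg hh hpos (P.s8 ε) s
    have a4 : ds h (P.s8 ε) s ≤ D := ds_anti hh hpos hs.1 hs.2
    have a5 : al * ds h (P.s8 ε) s ≤ al * D := mul_le_mul_of_nonneg_left a4 hal0.le
    have a6 : 0 ≤ al * ds h (P.s8 ε) s := by positivity
    have a7 : VA s = v + F2 * (- rs h (P.s8 ε) s) - al * ds h (P.s8 ε) s := by
      simp only [hVA, vl]; ring
    rw [a7, abs_le]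
    rcases le_total 0 F2 with h0 | h0
    · have a8 : 0 ≤ F2 * (- rs h (P.s8 ε) s) := mul_nonneg h0 a1
      have a9 : F2 * (- rs h (P.s8 ε) s) ≤ F2 * r2 := mul_le_mul_of_nonneg_left a2 h0
      constructor <;> linarith
    · have a8 : F2 * (- rs h (P.s8 ε) s) ≤ 0 := mul_nonpos_of_nonpos_of_nonneg h0 a1
      have a9 : F2 * r2 ≤ F2 * (- rs h (P.s8 ε) s) := mul_le_mul_of_nonpos_left a2 h0
      constructor <;> linarith
  -- bound on `R`
  have bR : ∀ s ∈ Icc (P.s10 ε) (P.s11 ε), r ≤ VR s ∧ VR s ≤ r + Fh * ε ^ 2 := by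
    intro s hs
    have a3 := ds_nonneg hh hpos (P.s10 ε) s
    have a4 : ds h (P.s10 ε) s ≤ ε ^ 2 := (ds_mono hh hpos hs.1 hs.2).trans dRR
    have a7 : VR s = r + Fh * ds h (P.s10 ε) s := by
      simp only [hVR, vl]; ring
    rw [a7]
    have a5 := mul_le_mul_of_nonneg_left a4 f4.le
    have a6 : 0 ≤ Fh * ds h (P.s10 ε) s := by positivity
    constructor <;> linarith
  have hwr := bR (P.s11 ε) ⟨O.o1011.le, le_rfl⟩
  rw [← hw] at hwr
  have k3a : Fh * ε ^ 2 < δ := k3.trans_le (min_le_left _ _)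
  have k3b : Fh * ε ^ 2 < 1 - r := k3.trans_le (min_le_right _ _)
  -- bound on `E`
  have bE : ∀ s ∈ Icc (P.s11 ε) (P.s14 ε), 0 ≤ VE s ∧ VE s ≤ 1 := by
    intro s hs
    have a1 : 0 ≤ rs h (P.s11 ε) s := rs_nonneg hh hpos hs.1
    have a2 : rs h (P.s11 ε) s ≤ rs h (P.s11 ε) (P.s14 ε) := rs_mono hh hpos hs.2
    set θ := rs h (P.s11 ε) s / rs h (P.s11 ε) (P.s14 ε) with hθ
    have t0 : 0 ≤ θ := div_nonneg a1 hrEpos.le
    have t1 : θ ≤ 1 := (div_le_one hrEpos).2 a2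
    have a7 : VE s = w + (x' - w) * θ := by
      simp only [hVE, vl, hFE, hθ]; ring
    rw [a7]
    exact mix01 (hr0.le.trans hwr.1) (by linarith [hwr.2]) hx'0 e1.le t0 t1
  have hE14 : VE (P.s14 ε) = x' := by
    simp only [hVE, vl, hFE]
    field_simp
    ring
  have hVA5 : VA (P.s5 ε) = y' := by
    have : VA (P.s5 ε) = v + F2 * r2 - al * D := by
      simp only [hVA, vl, hr2, hDD]; ring
    rw [this, hF2r]; ring
  -- derivatives of `q`
  have hqd : ∀ t ∈ Icc 0 P.τ, HasDerivAt q (q' t) t := by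
    intro t ht
    have h1 := (PF.d1 (dr - t) (by linarith [ht.1])).comp_const_sub dr t
    have h2 := (PF.d1 (t - (P.τ - dR)) (by linarith [ht.2])).comp_sub_const t (P.τ - dR)
    exact h1.add h2
  have hqd' : ∀ t ∈ Icc 0 P.τ, HasDerivAt q' (-(L * gg P.p (q t))) t := by
    intro t ht
    have h1 := ((PF.d2 (dr - t) (by linarith [ht.1])).comp_const_sub dr t).neg
    have h2 := (PF.d2 (t - (P.τ - dR)) (by linarith [ht.2])).comp_sub_const t (P.τ - dR)
    refine (h1.add h2).congr_deriv ?_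
    rcases le_total (dr - t) 0 with h0 | h0
    · have z := PF.zero (dr - t) h0
      have : q t = prof P.p L (t - (P.τ - dR)) := by simp only [hq, z, zero_add]
      have hn : 0 ≤ prof P.p L (t - (P.τ - dR)) := by
        rcases le_or_gt (t - (P.τ - dR)) 0 with h4 | h4
        · rw [PF.zero _ h4]
        · exact (PF.pos _ h4 (by linarith [ht.2])).le
      rw [this, z, Real.zero_rpow hp0.ne', gg_of_nonneg hp0 hn]
      ring
    · have z := PF.zero (t - (P.τ - dR)) (by linarith)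
      have : q t = prof P.p L (dr - t) := by simp only [hq, z, add_zero]
      have hn : 0 ≤ prof P.p L (dr - t) := by
        rcases le_or_gt (dr - t) 0 with h4 | h4
        · rw [PF.zero _ h4]
        · exact (PF.pos _ h4 (by linarith [ht.1])).le
      rw [this, z, Real.zero_rpow hp0.ne', gg_of_nonneg hp0 hn]
      ring
  -- the pieces
  have pA : Piece P.p L h U VA (fl h (P.s8 ε) (-F2) al) (fun _ => al) (P.s5 ε) (P.s8 ε) := by
    refine piece_const hh hpos (O.o56.trans (O.o67.trans O.o78)) U1 fun s hs => ?_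
    rw [U1 s hs]
    exact mul_le_mul_of_nonneg_left (gg_le hp0 hp1 (bA s hs)) hL.le
  have pQ : Piece P.p L h U VQ (fun s => ε * q' (s - P.s8 ε))
      (fun s => L * gg P.p (q (s - P.s8 ε))) (P.s8 ε) (P.s8 ε + P.τ) := by
    refine piece_Q hp0 hε hτ (fun s hs => hR.hQ s (by rwa [hs9])) (fun s hs => ?_) hqd hqd'
    exact U2 s (by rwa [hs9])
  rw [← hs9] at pQ
  have pJ : Piece P.p L h U VJ (fl h (P.s9 ε) 0 0) (fun _ => 0) (P.s9 ε) (P.s10 ε) := by
    refine piece_const hh hpos O.o910 U3 fun s hs => ?_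
    rw [U3 s hs, vJ]
    exact mul_nonpos_of_nonneg_of_nonpos hL.le (gg_nonpos hp0 hp1 hr0.le hr1.le)
  have pR : Piece P.p L h U VR (fl h (P.s10 ε) 0 (-Fh)) (fun _ => -Fh) (P.s10 ε) (P.s11 ε) := by
    refine piece_const hh hpos O.o1011 U4 fun s hs => ?_
    rw [U4 s hs]
    obtain ⟨b1, b2⟩ := bR s hs
    refine hδ _ ?_
    rw [abs_of_nonneg (by linarith)]
    linarith
  have pE : Piece P.p L h U VE (fl h (P.s11 ε) FE 0) (fun _ => 0) (P.s11 ε) (P.s14 ε) := by
    refine piece_const hh hpos (O.o1112.trans (O.o1213.trans O.o1314)) U5 fun s hs => ?_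
    rw [U5 s hs]
    obtain ⟨b1, b2⟩ := bE s hs
    exact mul_nonpos_of_nonneg_of_nonpos hL.le (gg_nonpos hp0 hp1 b1 b2)
  refine ⟨U, super_of_pieces P hh hpos pA pQ pJ pR pE ?_ ?_ ?_ ?_, ?_, ?_, ?_⟩
  · -- flux at `s8`
    simp only [sub_self, fl_self, q0']
    have c1 : F2 ≤ ε * v' := by
      rw [hF2, div_le_iff₀ hr2pos]
      rcases le_total (y' - v + al * D) 0 with h0 | h0
      · exact h0.trans (by positivity)
      · have h1 : ε * v' * (1 / (P.c * ε)) ≤ ε * v' * r2 :=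
          mul_le_mul_of_nonneg_left rA.1 (by positivity)
        have h2 : ε * v' * (1 / (P.c * ε)) = v' / P.c := by field_simp
        have h3 : y' - v + al * D ≤ v' / P.c := by
          rw [le_div_iff₀ hc, mul_comm]
          exact (mul_le_mul_of_nonneg_left (add_le_add_right halD (y' - v)) hc.le).trans k2.le
        linarith
    linarith
  · -- flux at `s9`
    simp only [s89 P ε, fl_self, qτ']
    positivity
  · rw [fl_self]
    simp [fl]
  · -- flux at `s11`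
    rw [fl_self]
    have c1 : fl h (P.s10 ε) 0 (-Fh) (P.s11 ε) = Fh := by
      simp only [fl, msR hε hR]; ring
    rw [c1, hFE, div_le_iff₀ hrEpos]
    rcases le_total (x' - w) 0 with h0 | h0
    · exact h0.trans (by positivity)
    · have h1 : Fh * (1 / P.a) ≤ Fh * rs h (P.s11 ε) (P.s14 ε) :=
        mul_le_mul_of_nonneg_left rE.1 f4.le
      have h2 : x' - w ≤ Fh * (1 / P.a) := by
        rw [mul_one_div, le_div_iff₀ ha, mul_comm]
        exact (mul_le_mul_of_nonneg_left (sub_le_sub_left hwr.1 x') ha.le).trans f3.le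
      linarith
  · rw [U5 _ ⟨(O.o1112.trans (O.o1213.trans O.o1314)).le, le_rfl⟩, hE14]
  · rw [U1 _ ⟨le_rfl, (O.o56.trans (O.o67.trans O.o78)).le⟩, hVA5]
  · refine ⟨P.s8 ε + dr, P.s8 ε + (P.τ - dR), by linarith, by linarith, by linarith, ?_⟩
    intro s hs
    rw [U2 s ⟨by linarith [hs.1], by linarith [hs.2]⟩]
    simp only [hVQ, hq]
    rw [PF.zero _ (by linarith [hs.1]), PF.zero _ (by linarith [hs.2]), add_zero]

end Pool.Agent.Lib.MP_e46711_an.H74
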