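import Pool.Agent.Lib.MP_e46711_an.H74.Flux

/-!
# MP_e46711_an, module C5b: resistances and masses of the pieces of the ring
-/

open Set Filter Topology MeasureTheory

namespace Pool.Agent.Lib.MP_e46711_an.H74

open Pool.Agent.Lib.MP_e46711_an

section
variable {P : Par} {ε : ℝ} {h : ℝ → ℝ}

lemma s56 (P : Par) (ε : ℝ) : P.s6 ε - P.s5 ε = ε ^ 3 := by unfold Par.s6 Par.s5; ring
lemma s67 (P : Par) (ε : ℝ) : P.s7 ε - P.s6 ε = ε := by unfold Par.s7 Par.s6; ring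
lemma s78 (P : Par) (ε : ℝ) : P.s8 ε - P.s7 ε = ε ^ 3 := by unfold Par.s8 Par.s7; ring
lemma s89 (P : Par) (ε : ℝ) : P.s9 ε - P.s8 ε = P.τ := by unfold Par.s9 Par.s8; ring
lemma s910 (P : Par) (ε : ℝ) : P.s10 ε - P.s9 ε = ε ^ 3 := by unfold Par.s10 Par.s9; ring
lemma s1011 (P : Par) (ε : ℝ) : P.s11 ε - P.s10 ε = ε := by unfold Par.s11 Par.s10; ring
lemma s1112 (P : Par) (ε : ℝ) : P.s12 ε - P.s11 ε = ε ^ 3 := by unfold Par.s12 Par.s11; ring
lemma s1213 (P : Par) (ε : ℝ) : P.s13 ε - P.s12 ε = ε := by unfold Par.s13 Par.s12; ring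
lemma s1314 (P : Par) (ε : ℝ) : P.s14 ε - P.s13 ε = ε ^ 3 := by unfold Par.s14 Par.s13; ring

structure Ord (P : Par) (ε : ℝ) : Prop where
  e3 : 0 < ε ^ 3
  o56 : P.s5 ε < P.s6 ε
  o67 : P.s6 ε < P.s7 ε
  o78 : P.s7 ε < P.s8 ε
  o89 : P.s8 ε < P.s9 ε
  o910 : P.s9 ε < P.s10 ε
  o1011 : P.s10 ε < P.s11 ε
  o1112 : P.s11 ε < P.s12 ε
  o1213 : P.s12 ε < P.s13 ε
  o1314 : P.s13 ε < P.s14 ε

lemma ord (hε : 0 < ε) : Ord P ε := by
  have h3 : 0 < ε ^ 3 := by positivity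
  have := P.hτ
  exact ⟨h3, by linarith [s56 P ε], by linarith [s67 P ε], by linarith [s78 P ε],
    by linarith [s89 P ε], by linarith [s910 P ε], by linarith [s1011 P ε],
    by linarith [s1112 P ε], by linarith [s1213 P ε], by linarith [s1314 P ε]⟩

variable (hε : 0 < ε) (hR : P.IsRing ε h)
include hε hR

lemma lowA {s : ℝ} (hs : s ∈ Icc (P.s5 ε) (P.s8 ε)) : P.c * ε ^ 2 ≤ h s := by
  rcases le_total s (P.s6 ε) with h1 | h1
  · exact (hR.hJ3 s ⟨hs.1, h1⟩).1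
  · rcases le_total s (P.s7 ε) with h2 | h2
    · exact (hR.hN2 s ⟨h1, h2⟩).ge
    · exact (hR.hJ4 s ⟨h2, hs.2⟩).1

lemma lowE {s : ℝ} (hs : s ∈ Icc (P.s11 ε) (P.s14 ε)) : P.a * ε ≤ h s := by
  rcases le_total s (P.s12 ε) with h1 | h1
  · exact (hR.hJ6 s ⟨hs.1, h1⟩).1
  · rcases le_total s (P.s13 ε) with h2 | h2
    · exact (hR.hN3 s ⟨h1, h2⟩).ge
    · exact (hR.hJ7 s ⟨h2, hs.2⟩).1

/-- the resistance of `A` -/
lemma resA : 1 / (P.c * ε) ≤ - rs h (P.s8 ε) (P.s5 ε) ∧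
    - rs h (P.s8 ε) (P.s5 ε) ≤ (1 + 2 * ε ^ 2) / (P.c * ε) := by
  have hh := hR.smooth.continuous
  have O := ord (P := P) hε
  have hc := P.hc
  have e0 : - rs h (P.s8 ε) (P.s5 ε) = ∫ t in (P.s5 ε)..(P.s8 ε), 1 / h t := by
    unfold rs
    rw [intervalIntegral.integral_symm, neg_neg]
  have hci := cont_inv hh hR.pos
  rw [e0]
  constructor
  · rw [int_add hci (P.s5 ε) (P.s6 ε) (P.s8 ε), int_add hci (P.s6 ε) (P.s7 ε) (P.s8 ε)]
    have h1 : 0 ≤ ∫ t in (P.s5 ε)..(P.s6 ε), 1 / h t := rs_nonneg hh hR.pos O.o56.le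
    have h2 : 0 ≤ ∫ t in (P.s7 ε)..(P.s8 ε), 1 / h t := rs_nonneg hh hR.pos O.o78.le
    have h3 := le_int O.o67.le hci (C := 1 / (P.c * ε ^ 2))
      (fun s hs => by rw [hR.hN2 s hs])
    rw [s67 P ε] at h3
    have h4 : 1 / (P.c * ε ^ 2) * ε = 1 / (P.c * ε) := by field_simp
    linarith
  · have h3 := int_le (O.o56.trans (O.o67.trans O.o78)).le hci (C := 1 / (P.c * ε ^ 2))
      (fun s hs => one_div_le_one_div_of_le (by positivity) (lowA hε hR hs))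
    refine h3.trans (le_of_eq ?_)
    rw [show P.s8 ε - P.s5 ε = ε + 2 * ε ^ 3 by linarith [s56 P ε, s67 P ε, s78 P ε]]
    field_simp

/-- the bound for the double integral on `A` -/
noncomputable def DA (P : Par) (ε : ℝ) : ℝ :=
  1 / P.c * (ε * (P.m * ε + P.c * ε ^ 3 + ε ^ 4) + (ε + ε ^ 3) * (P.c * ε + ε ^ 2))

lemma dsA : ds h (P.s8 ε) (P.s5 ε) ≤ DA P ε := by
  have hh := hR.smooth.continuous
  have O := ord (P := P) hε
  have hc := P.hc
  have hm := P.hm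
  set b := P.s8 ε with hb
  have e0 : ds h b (P.s5 ε) = ∫ t in (P.s5 ε)..b, -ms h b t / h t := by
    unfold ds
    rw [intervalIntegral.integral_symm, ← intervalIntegral.integral_neg]
    congr 1
    funext t
    ring
  have hcf : Continuous fun t => -ms h b t / h t :=
    (continuous_ms hh b).neg.div hh fun s => (hR.pos s).ne'
  -- masses
  have m3 : ∫ t in (P.s5 ε)..(P.s6 ε), h t ≤ P.m / ε ^ 2 * ε ^ 3 := by
    rw [← s56 P ε]
    exact int_le O.o56.le hh fun s hs => (hR.hJ3 s hs).2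
  have m2 : ∫ t in (P.s6 ε)..(P.s7 ε), h t ≤ P.c * ε ^ 2 * ε := by
    have := int_le O.o67.le hh (C := P.c * ε ^ 2) fun s hs => (hR.hN2 s hs).le
    rwa [s67 P ε] at this
  have m4 : ∫ t in (P.s7 ε)..b, h t ≤ ε * ε ^ 3 := by
    have := int_le O.o78.le hh (C := ε) fun s hs => (hR.hJ4 s hs).2
    rwa [s78 P ε] at this
  have ma : ∀ t ∈ Icc (P.s6 ε) b, -ms h b t ≤ P.c * ε ^ 3 + ε ^ 4 := by
    intro t ht
    have h1 := ms_mono hh hR.pos (b := b) ht.1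
    have h2 : -ms h b (P.s6 ε) = (∫ t in (P.s6 ε)..(P.s7 ε), h t) + ∫ t in (P.s7 ε)..b, h t := by
      rw [← int_add hh]
      unfold ms
      rw [intervalIntegral.integral_symm, neg_neg]
    nlinarith
  have mb : ∀ t ∈ Icc (P.s5 ε) b, -ms h b t ≤ P.m * ε + P.c * ε ^ 3 + ε ^ 4 := by
    intro t ht
    have h1 := ms_mono hh hR.pos (b := b) ht.1
    have h2 : -ms h b (P.s5 ε) = (∫ t in (P.s5 ε)..(P.s6 ε), h t) +
        ((∫ t in (P.s6 ε)..(P.s7 ε), h t) + ∫ t in (P.s7 ε)..b, h t) := by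
      rw [← int_add hh, ← int_add hh]
      unfold ms
      rw [intervalIntegral.integral_symm, neg_neg]
    have h3 : P.m / ε ^ 2 * ε ^ 3 = P.m * ε := by field_simp
    nlinarith
  have q1 : ∀ t ∈ Icc (P.s5 ε) b, ∀ M, 0 ≤ M → -ms h b t ≤ M →
      -ms h b t / h t ≤ M / (P.c * ε ^ 2) := by
    intro t ht M hM hle
    have h1 := lowA hε hR ht
    have h2 : 0 < P.c * ε ^ 2 := by positivity
    exact div_le_div₀ hM hle h2 h1
  rw [e0, int_add hcf (P.s5 ε) (P.s6 ε) b]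
  have i1 := int_le O.o56.le hcf fun t ht => q1 t ⟨ht.1, ht.2.trans (O.o67.trans O.o78).le⟩
    (P.m * ε + P.c * ε ^ 3 + ε ^ 4) (by positivity) (mb t ⟨ht.1, ht.2.trans (O.o67.trans O.o78).le⟩)
  have i2 := int_le (O.o67.trans O.o78).le hcf fun t ht => q1 t ⟨O.o56.le.trans ht.1, ht.2⟩
    (P.c * ε ^ 3 + ε ^ 4) (by positivity) (ma t ht)
  rw [s56 P ε] at i1
  rw [show P.s8 ε - P.s6 ε = ε + ε ^ 3 by linarith [s67 P ε, s78 P ε]] at i2
  refine (add_le_add i1 i2).trans (le_of_eq ?_)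
  unfold DA
  field_simp

lemma resE : 1 / P.a ≤ rs h (P.s11 ε) (P.s14 ε) ∧
    rs h (P.s11 ε) (P.s14 ε) ≤ (1 + 2 * ε ^ 2) / P.a := by
  have hh := hR.smooth.continuous
  have O := ord (P := P) hε
  have ha : 0 < P.a := by linarith [P.ha, P.hL0, P.hL01, P.hL12]
  have hci := cont_inv hh hR.pos
  unfold rs
  constructor
  · rw [int_add hci (P.s11 ε) (P.s12 ε) (P.s14 ε), int_add hci (P.s12 ε) (P.s13 ε) (P.s14 ε)]
    have h1 : 0 ≤ ∫ t in (P.s11 ε)..(P.s12 ε), 1 / h t := rs_nonneg hh hR.pos O.o1112.le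
    have h2 : 0 ≤ ∫ t in (P.s13 ε)..(P.s14 ε), 1 / h t := rs_nonneg hh hR.pos O.o1314.le
    have h3 := le_int O.o1213.le hci (C := 1 / (P.a * ε))
      (fun s hs => by rw [hR.hN3 s hs])
    rw [s1213 P ε] at h3
    have h4 : 1 / (P.a * ε) * ε = 1 / P.a := by field_simp
    linarith
  · have h3 := int_le (O.o1112.trans (O.o1213.trans O.o1314)).le hci (C := 1 / (P.a * ε))
      (fun s hs => one_div_le_one_div_of_le (by positivity) (lowE hε hR hs))
    refine h3.trans (le_of_eq ?_)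
    rw [show P.s14 ε - P.s11 ε = ε + 2 * ε ^ 3 by linarith [s1112 P ε, s1213 P ε, s1314 P ε]]
    field_simp

/-- the bound for the double integral on `E` -/
noncomputable def DE (P : Par) (ε : ℝ) : ℝ :=
  1 / P.a * ((ε ^ 2 + P.a * ε ^ 2) * (1 + ε ^ 2) + (ε ^ 2 + P.a * ε ^ 2 + P.M * ε) * ε ^ 2)

lemma dsE : ds h (P.s11 ε) (P.s14 ε) ≤ DE P ε := by
  have hh := hR.smooth.continuous
  have O := ord (P := P) hε
  have ha : 0 < P.a := by linarith [P.ha, P.hL0, P.hL01, P.hL12]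
  have hM := P.hM
  set b := P.s11 ε with hb
  have hcf := cont_msh hh hR.pos b
  have m6 : ∫ t in b..(P.s12 ε), h t ≤ 1 / ε * ε ^ 3 := by
    rw [← s1112 P ε]
    exact int_le O.o1112.le hh fun s hs => (hR.hJ6 s hs).2
  have m3 : ∫ t in (P.s12 ε)..(P.s13 ε), h t ≤ P.a * ε * ε := by
    have := int_le O.o1213.le hh (C := P.a * ε) fun s hs => (hR.hN3 s hs).le
    rwa [s1213 P ε] at this
  have m7 : ∫ t in (P.s13 ε)..(P.s14 ε), h t ≤ P.M / ε ^ 2 * ε ^ 3 := by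
    have := int_le O.o1314.le hh (C := P.M / ε ^ 2) fun s hs => (hR.hJ7 s hs).2
    rwa [s1314 P ε] at this
  have ma : ∀ t ∈ Icc b (P.s13 ε), ms h b t ≤ ε ^ 2 + P.a * ε ^ 2 := by
    intro t ht
    have h1 := ms_mono hh hR.pos (b := b) ht.2
    have h2 : ms h b (P.s13 ε) = (∫ t in b..(P.s12 ε), h t) + ∫ t in (P.s12 ε)..(P.s13 ε), h t :=
      int_add hh _ _ _
    have h3 : 1 / ε * ε ^ 3 = ε ^ 2 := by field_simp
    nlinarith
  have mb : ∀ t ∈ Icc b (P.s14 ε), ms h b t ≤ ε ^ 2 + P.a * ε ^ 2 + P.M * ε := by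
    intro t ht
    have h1 := ms_mono hh hR.pos (b := b) ht.2
    have h2 : ms h b (P.s14 ε) = (∫ t in b..(P.s12 ε), h t) +
        ((∫ t in (P.s12 ε)..(P.s13 ε), h t) + ∫ t in (P.s13 ε)..(P.s14 ε), h t) := by
      rw [← int_add hh, ← int_add hh]
      rfl
    have h3 : 1 / ε * ε ^ 3 = ε ^ 2 := by field_simp
    have h4 : P.M / ε ^ 2 * ε ^ 3 = P.M * ε := by field_simp
    nlinarith
  have q1 : ∀ t ∈ Icc b (P.s14 ε), ∀ M, 0 ≤ M → ms h b t ≤ M →
      ms h b t / h t ≤ M / (P.a * ε) := by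
    intro t ht M hM hle
    have h1 := lowE hε hR ht
    have h2 : 0 < P.a * ε := by positivity
    exact div_le_div₀ hM hle h2 h1
  unfold ds
  rw [int_add hcf b (P.s13 ε) (P.s14 ε)]
  have i1 := int_le (O.o1112.trans O.o1213).le hcf fun t ht =>
    q1 t ⟨ht.1, ht.2.trans O.o1314.le⟩ (ε ^ 2 + P.a * ε ^ 2) (by positivity) (ma t ht)
  have i2 := int_le O.o1314.le hcf fun t ht =>
    q1 t ⟨(O.o1112.trans O.o1213).le.trans ht.1, ht.2⟩ (ε ^ 2 + P.a * ε ^ 2 + P.M * ε)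
      (by positivity) (mb t ⟨(O.o1112.trans O.o1213).le.trans ht.1, ht.2⟩)
  rw [show P.s13 ε - P.s11 ε = ε + ε ^ 3 by linarith [s1112 P ε, s1213 P ε]] at i1
  rw [s1314 P ε] at i2
  refine (add_le_add i1 i2).trans (le_of_eq ?_)
  unfold DE
  field_simp

lemma msJ : ms h (P.s9 ε) (P.s10 ε) ≤ ε ^ 2 := by
  have hh := hR.smooth.continuous
  have O := ord (P := P) hε
  have := int_le O.o910.le hh (C := 1 / ε) fun s hs => (hR.hJ5 s hs).2
  rw [s910 P ε] at this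
  refine this.trans (le_of_eq ?_)
  field_simp

lemma dsJ : ds h (P.s9 ε) (P.s10 ε) ≤ ε ^ 4 := by
  have hh := hR.smooth.continuous
  have O := ord (P := P) hε
  have := int_le O.o910.le (cont_msh hh hR.pos (P.s9 ε)) (C := ε ^ 2 / ε) fun s hs =>
    div_le_div₀ (by positivity) ((ms_mono hh hR.pos hs.2).trans (msJ hε hR)) hε (hR.hJ5 s hs).1
  rw [s910 P ε] at this
  refine this.trans (le_of_eq ?_)
  field_simp

lemma msR : ms h (P.s10 ε) (P.s11 ε) = 1 := by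
  have hh := hR.smooth.continuous
  have O := ord (P := P) hε
  have h1 := int_le O.o1011.le hh (C := 1 / ε) fun s hs => (hR.hR s hs).le
  have h2 := le_int O.o1011.le hh (C := 1 / ε) fun s hs => (hR.hR s hs).ge
  rw [s1011 P ε] at h1 h2
  have h3 : 1 / ε * ε = 1 := by field_simp
  unfold ms
  linarith

lemma rsR : rs h (P.s10 ε) (P.s11 ε) ≤ ε ^ 2 := by
  have hh := hR.smooth.continuous
  have O := ord (P := P) hε
  have h1 := int_le O.o1011.le (cont_inv hh hR.pos) (C := ε) fun s hs => by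
    rw [hR.hR s hs]; simp
  rw [s1011 P ε] at h1
  unfold rs
  linarith

lemma dsR : ds h (P.s10 ε) (P.s11 ε) ≤ ε ^ 2 := by
  have hh := hR.smooth.continuous
  have O := ord (P := P) hε
  have h1 := int_le O.o1011.le (cont_msh hh hR.pos (P.s10 ε)) (C := ε) fun s hs => by
    have h2 := (ms_mono hh hR.pos hs.2).trans (msR hε hR).le
    rw [hR.hR s hs, div_div_eq_mul_div, div_one]
    nlinarith
  rw [s1011 P ε] at h1
  unfold ds
  linarith

end

end Pool.Agent.Lib.MP_e46711_an.H74
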