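import Pool.Agent.Lib.MP_e46711_an.H74.Bar

/-!
# MP_e46711_an, module C5b: functions with prescribed flux
-/

open Set Filter Topology MeasureTheory

namespace Pool.Agent.Lib.MP_e46711_an.H74

open Pool.Agent.Lib.MP_e46711_an

lemma int_le {f : ℝ → ℝ} {a b C : ℝ} (hab : a ≤ b) (hf : Continuous f)
    (h : ∀ s ∈ Icc a b, f s ≤ C) : ∫ s in a..b, f s ≤ C * (b - a) := by
  have h1 := intervalIntegral.integral_mono_on (μ := volume) hab (hf.intervalIntegrable a b)
    ((continuous_const (y := C)).intervalIntegrable a b) h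
  rw [intervalIntegral.integral_const, smul_eq_mul] at h1
  linarith

lemma le_int {f : ℝ → ℝ} {a b C : ℝ} (hab : a ≤ b) (hf : Continuous f)
    (h : ∀ s ∈ Icc a b, C ≤ f s) : C * (b - a) ≤ ∫ s in a..b, f s := by
  have h1 := intervalIntegral.integral_mono_on (μ := volume) hab
    ((continuous_const (y := C)).intervalIntegrable a b) (hf.intervalIntegrable a b) h
  rw [intervalIntegral.integral_const, smul_eq_mul] at h1
  linarith

lemma int_add {f : ℝ → ℝ} (hf : Continuous f) (a b c : ℝ) :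
    ∫ s in a..c, f s = (∫ s in a..b, f s) + ∫ s in b..c, f s :=
  (intervalIntegral.integral_add_adjacent_intervals (hf.intervalIntegrable a b)
    (hf.intervalIntegrable b c)).symm

/-- resistance from `b` to `s` -/
noncomputable def rs (h : ℝ → ℝ) (b s : ℝ) : ℝ := ∫ t in b..s, 1 / h t
/-- mass from `b` to `s` -/
noncomputable def ms (h : ℝ → ℝ) (b s : ℝ) : ℝ := ∫ t in b..s, h t
/-- double integral -/
noncomputable def ds (h : ℝ → ℝ) (b s : ℝ) : ℝ := ∫ t in b..s, ms h b t / h t
/-- flux -/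
noncomputable def fl (h : ℝ → ℝ) (b F al s : ℝ) : ℝ := F - al * ms h b s
/-- the function with value `v` at `b` and flux `fl` -/
noncomputable def vl (h : ℝ → ℝ) (b v F al s : ℝ) : ℝ := v + F * rs h b s - al * ds h b s

section
variable {h : ℝ → ℝ} (hh : Continuous h) (hpos : ∀ s, 0 < h s)
include hh

lemma hasDerivAt_ms (b s : ℝ) : HasDerivAt (ms h b) (h s) s :=
  intervalIntegral.integral_hasDerivAt_right (hh.intervalIntegrable _ _)
    (hh.stronglyMeasurableAtFilter _ _) hh.continuousAt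

lemma continuous_ms (b : ℝ) : Continuous (ms h b) :=
  continuous_iff_continuousAt.2 fun s => (hasDerivAt_ms hh b s).continuousAt

lemma hasDerivAt_fl (b F al s : ℝ) : HasDerivAt (fl h b F al) (-(h s * al)) s := by
  have h1 := ((hasDerivAt_ms hh b s).const_mul al).const_sub F
  exact h1.congr_deriv (by ring)

include hpos

lemma cont_inv : Continuous fun t => 1 / h t :=
  continuous_const.div hh fun s => (hpos s).ne'

lemma cont_msh (b : ℝ) : Continuous fun t => ms h b t / h t :=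
  (continuous_ms hh b).div hh fun s => (hpos s).ne'

lemma hasDerivAt_rs (b s : ℝ) : HasDerivAt (rs h b) (1 / h s) s :=
  intervalIntegral.integral_hasDerivAt_right ((cont_inv hh hpos).intervalIntegrable _ _)
    ((cont_inv hh hpos).stronglyMeasurableAtFilter _ _) (cont_inv hh hpos).continuousAt

lemma hasDerivAt_ds (b s : ℝ) : HasDerivAt (ds h b) (ms h b s / h s) s :=
  intervalIntegral.integral_hasDerivAt_right ((cont_msh hh hpos b).intervalIntegrable _ _)
    ((cont_msh hh hpos b).stronglyMeasurableAtFilter _ _) (cont_msh hh hpos b).continuousAt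

lemma hasDerivAt_vl (b v F al s : ℝ) :
    HasDerivAt (vl h b v F al) (fl h b F al s / h s) s := by
  have h1 := (((hasDerivAt_rs hh hpos b s).const_mul F).const_add v).sub
    ((hasDerivAt_ds hh hpos b s).const_mul al)
  refine h1.congr_deriv ?_
  unfold fl
  have := (hpos s).ne'
  field_simp

lemma ms_nonneg {b s : ℝ} (hbs : b ≤ s) : 0 ≤ ms h b s :=
  intervalIntegral.integral_nonneg hbs fun t _ => (hpos t).le

lemma ms_nonpos {b s : ℝ} (hbs : s ≤ b) : ms h b s ≤ 0 := by
  unfold ms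
  rw [intervalIntegral.integral_symm]
  have := ms_nonneg hh hpos hbs
  unfold ms at this
  linarith

lemma rs_nonneg {b s : ℝ} (hbs : b ≤ s) : 0 ≤ rs h b s :=
  intervalIntegral.integral_nonneg hbs fun t _ => (one_div_pos.2 (hpos t)).le

lemma rs_nonpos {b s : ℝ} (hbs : s ≤ b) : rs h b s ≤ 0 := by
  unfold rs
  rw [intervalIntegral.integral_symm]
  have := rs_nonneg hh hpos hbs
  unfold rs at this
  linarith

lemma rs_mono {b s t : ℝ} (hst : s ≤ t) : rs h b s ≤ rs h b t := by
  unfold rs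
  rw [int_add (cont_inv hh hpos) b s t]
  have := rs_nonneg hh hpos hst
  unfold rs at this
  linarith

lemma ms_mono {b s t : ℝ} (hst : s ≤ t) : ms h b s ≤ ms h b t := by
  unfold ms
  rw [int_add hh b s t]
  have := ms_nonneg hh hpos hst
  unfold ms at this
  linarith

/-- `ds` increases to the right of `b` -/
lemma ds_mono {b s t : ℝ} (hbs : b ≤ s) (hst : s ≤ t) : ds h b s ≤ ds h b t := by
  unfold ds
  rw [int_add (cont_msh hh hpos b) b s t]
  have : 0 ≤ ∫ r in s..t, ms h b r / h r :=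
    intervalIntegral.integral_nonneg hst fun r hr =>
      div_nonneg (ms_nonneg hh hpos (hbs.trans hr.1)) (hpos r).le
  linarith

/-- `ds` decreases to the left of `b` -/
lemma ds_anti {b s t : ℝ} (hst : s ≤ t) (htb : t ≤ b) : ds h b t ≤ ds h b s := by
  unfold ds
  rw [int_add (cont_msh hh hpos b) b s t]
  have : ∫ r in s..t, ms h b r / h r ≤ 0 := by
    have h1 : 0 ≤ ∫ r in s..t, -(ms h b r / h r) :=
      intervalIntegral.integral_nonneg hst fun r hr => by
        have := ms_nonpos hh hpos (hr.2.trans htb)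
        rw [← neg_div]
        exact div_nonneg (by linarith) (hpos r).le
    rw [intervalIntegral.integral_neg] at h1
    linarith
  linarith

lemma ds_nonneg (b s : ℝ) : 0 ≤ ds h b s := by
  have h0 : ds h b b = 0 := by simp [ds]
  rcases le_total b s with h | h
  · rw [← h0]; exact ds_mono hh hpos le_rfl h
  · rw [← h0]; exact ds_anti hh hpos h le_rfl

end

/-- a piece with a constant right hand side -/
lemma piece_const {p L : ℝ} {h U : ℝ → ℝ} (hh : Continuous h) (hpos : ∀ s, 0 < h s)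
    {a b b0 v F al : ℝ} (hab : a < b) (heq : ∀ s ∈ Icc a b, U s = vl h b0 v F al s)
    (hge : ∀ s ∈ Icc a b, L * gg p (U s) ≤ al) :
    Piece p L h U (vl h b0 v F al) (fl h b0 F al) (fun _ => al) a b :=
  ⟨hab, heq, fun s _ => hasDerivAt_vl hh hpos b0 v F al s, fun s _ => hasDerivAt_fl hh b0 F al s,
    continuousOn_const, hge⟩

/-- the same for `-U` -/
lemma piece_const_neg {p L : ℝ} {h U : ℝ → ℝ} (hh : Continuous h) (hpos : ∀ s, 0 < h s)
    {a b b0 v F al : ℝ} (hab : a < b) (heq : ∀ s ∈ Icc a b, U s = vl h b0 v F al s)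
    (hge : ∀ s ∈ Icc a b, al ≤ L * gg p (U s)) :
    Piece p L h (fun s => - U s) (fun s => - vl h b0 v F al s) (fun s => - fl h b0 F al s)
      (fun _ => -al) a b := by
  refine ⟨hab, fun s hs => by rw [heq s hs], fun s _ => ?_, fun s _ => ?_,
    continuousOn_const, fun s hs => ?_⟩
  · exact (hasDerivAt_vl hh hpos b0 v F al s).neg.congr_deriv (by ring)
  · exact (hasDerivAt_fl hh b0 F al s).neg.congr_deriv (by ring)
  · rw [gg_neg]
    have := hge s hs
    linarith

/-- five functions glued at four points -/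
noncomputable def pw (b1 b2 b3 b4 : ℝ) (V1 V2 V3 V4 V5 : ℝ → ℝ) (s : ℝ) : ℝ :=
  if s ≤ b1 then V1 s else if s ≤ b2 then V2 s else if s ≤ b3 then V3 s
    else if s ≤ b4 then V4 s else V5 s

section
variable {b1 b2 b3 b4 : ℝ} {V1 V2 V3 V4 V5 : ℝ → ℝ}

lemma pw1 {s : ℝ} (h : s ≤ b1) : pw b1 b2 b3 b4 V1 V2 V3 V4 V5 s = V1 s := by
  unfold pw; rw [if_pos h]

lemma pw2 (e1 : V1 b1 = V2 b1) {s : ℝ} (h : b1 ≤ s) (h' : s ≤ b2) :
    pw b1 b2 b3 b4 V1 V2 V3 V4 V5 s = V2 s := by
  unfold pw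
  rcases h.eq_or_lt with rfl | h
  · rw [if_pos le_rfl, e1]
  · rw [if_neg (not_le.2 h), if_pos h']

lemma pw3 (h12 : b1 < b2) (e2 : V2 b2 = V3 b2) {s : ℝ} (h : b2 ≤ s)
    (h' : s ≤ b3) : pw b1 b2 b3 b4 V1 V2 V3 V4 V5 s = V3 s := by
  unfold pw
  rw [if_neg (not_le.2 (by linarith))]
  rcases h.eq_or_lt with rfl | h
  · rw [if_pos le_rfl, e2]
  · rw [if_neg (not_le.2 h), if_pos h']

lemma pw4 (h12 : b1 < b2) (h23 : b2 < b3) (e3 : V3 b3 = V4 b3) {s : ℝ}
    (h : b3 ≤ s) (h' : s ≤ b4) : pw b1 b2 b3 b4 V1 V2 V3 V4 V5 s = V4 s := by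
  unfold pw
  rw [if_neg (not_le.2 (by linarith)), if_neg (not_le.2 (by linarith))]
  rcases h.eq_or_lt with rfl | h
  · rw [if_pos le_rfl, e3]
  · rw [if_neg (not_le.2 h), if_pos h']

lemma pw5 (h12 : b1 < b2) (h23 : b2 < b3) (h34 : b3 < b4) (e4 : V4 b4 = V5 b4) {s : ℝ}
    (h : b4 ≤ s) : pw b1 b2 b3 b4 V1 V2 V3 V4 V5 s = V5 s := by
  unfold pw
  rw [if_neg (not_le.2 (by linarith)), if_neg (not_le.2 (by linarith)),
    if_neg (not_le.2 (by linarith))]
  rcases h.eq_or_lt with rfl | h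
  · rw [if_pos le_rfl, e4]
  · rw [if_neg (not_le.2 h)]

end

end Pool.Agent.Lib.MP_e46711_an.H74
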