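import Pool.Agent.Lib.MP_e46711_an.DefsC

/-!
# MP_e46711_an, module C5p: the zero-energy profile
-/

open Set Filter Topology MeasureTheory

namespace Pool.Agent.Lib.MP_e46711_an

/-- the length of the range of the profile -/
noncomputable def profT (p L : ℝ) : ℝ := Real.pi / ((1 - p) * √L)

/-- facts on the profile `prof p L` -/
structure ProfFacts (p L : ℝ) : Prop where
  T0 : 0 < profT p L
  d1 : ∀ t < profT p L, HasDerivAt (prof p L) (prof' p L t) t
  d2 : ∀ t < profT p L, HasDerivAt (prof' p L) (L * (prof p L t ^ p - prof p L t)) t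
  zero : ∀ t ≤ 0, prof p L t = 0
  zero' : ∀ t ≤ 0, prof' p L t = 0
  pos : ∀ t, 0 < t → t < profT p L → 0 < prof p L t
  pos' : ∀ t, 0 < t → t < profT p L → 0 < prof' p L t

namespace H74

section
variable {p L : ℝ}

/-- `f t = (k sin^2 (w t))^q` -/
noncomputable def pf (p L t : ℝ) : ℝ :=
  (2 / (p + 1) * Real.sin ((1 - p) * √L * t / 2) ^ 2) ^ (1 / (1 - p))

lemma hasDerivAt_sin (p L t : ℝ) :
    HasDerivAt (fun t => Real.sin ((1 - p) * √L * t / 2))
      (Real.cos ((1 - p) * √L * t / 2) * ((1 - p) * √L / 2)) t := by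
  have h : HasDerivAt (fun t : ℝ => (1 - p) * √L * t / 2) ((1 - p) * √L / 2) t := by
    have := ((hasDerivAt_id t).const_mul ((1 - p) * √L)).div_const 2
    simpa using this
  exact h.sin

lemma hasDerivAt_cos (p L t : ℝ) :
    HasDerivAt (fun t => Real.cos ((1 - p) * √L * t / 2))
      (-Real.sin ((1 - p) * √L * t / 2) * ((1 - p) * √L / 2)) t := by
  have h : HasDerivAt (fun t : ℝ => (1 - p) * √L * t / 2) ((1 - p) * √L / 2) t := by
    have := ((hasDerivAt_id t).const_mul ((1 - p) * √L)).div_const 2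
    simpa using this
  exact h.cos

lemma one_lt_q (hp0 : 0 < p) (hp1 : p < 1) : 1 < 1 / (1 - p) := by
  rw [lt_div_iff₀ (by linarith)]; linarith

lemma hasDerivAt_pf (hp0 : 0 < p) (hp1 : p < 1) (t : ℝ) :
    HasDerivAt (pf p L)
      (√L * (2 / (p + 1)) * (Real.sin ((1 - p) * √L * t / 2) * Real.cos ((1 - p) * √L * t / 2))
        * (2 / (p + 1) * Real.sin ((1 - p) * √L * t / 2) ^ 2) ^ (1 / (1 - p) - 1)) t := by
  have h1 := ((hasDerivAt_sin p L t).pow 2).const_mul (2 / (p + 1))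
  have h2 := h1.rpow_const (p := 1 / (1 - p)) (Or.inr (one_lt_q hp0 hp1).le)
  refine h2.congr_deriv ?_
  have h3 : (1 : ℝ) - p ≠ 0 := by linarith
  simp only [Pi.pow_apply]
  field_simp
  ring

/-- a function glued with zero -/
lemma hasDerivAt_ite0 {f : ℝ → ℝ} (h0 : f 0 = 0) (hd : HasDerivAt f 0 0) :
    HasDerivAt (fun t => if t ≤ 0 then (0:ℝ) else f t) 0 0 := by
  have h1 : HasDerivWithinAt (fun t => if t ≤ 0 then (0:ℝ) else f t) 0 (Iic 0) 0 := by
    refine (hasDerivWithinAt_const (0:ℝ) (Iic 0) (0:ℝ)).congr ?_ (by simp)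
    intro t ht
    simp [mem_Iic.1 ht]
  have h2 : HasDerivWithinAt (fun t => if t ≤ 0 then (0:ℝ) else f t) 0 (Ici 0) 0 := by
    refine hd.hasDerivWithinAt.congr ?_ (by simp [h0])
    intro t ht
    rcases eq_or_lt_of_le (mem_Ici.1 ht) with h | h
    · simp [← h, h0]
    · simp [not_le.2 h]
  have h3 := h1.union h2
  rw [Iic_union_Ici] at h3
  exact hasDerivWithinAt_univ.1 h3

lemma hasDerivAt_mul0 {u v : ℝ → ℝ} {u' : ℝ} (hu : HasDerivAt u u' 0) (hu0 : u 0 = 0)
    (hv : ContinuousAt v 0) : HasDerivAt (fun t => u t * v t) (u' * v 0) 0 := by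
  rw [hasDerivAt_iff_tendsto_slope]
  have h1 := (hasDerivAt_iff_tendsto_slope.1 hu).mul (hv.tendsto.mono_left
    (nhdsWithin_le_nhds (s := {0}ᶜ)))
  refine h1.congr fun t => ?_
  simp only [slope, vsub_eq_sub, sub_zero, hu0, zero_mul, smul_eq_mul]
  ring

lemma arg_mem (hp1 : p < 1) (hL : 0 < L) {t : ℝ} (h0 : 0 < t) (hT : t < profT p L) :
    0 < (1 - p) * √L * t / 2 ∧ (1 - p) * √L * t / 2 < Real.pi / 2 := by
  have h1 : 0 < (1 - p) * √L := mul_pos (by linarith) (Real.sqrt_pos.2 hL)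
  refine ⟨by positivity, ?_⟩
  unfold profT at hT
  rw [lt_div_iff₀ h1] at hT
  linarith

lemma profT_pos (hp1 : p < 1) (hL : 0 < L) : 0 < profT p L :=
  div_pos Real.pi_pos (mul_pos (by linarith) (Real.sqrt_pos.2 hL))

lemma prof_eq {t : ℝ} (h0 : 0 < t) : prof p L t = pf p L t := by
  unfold prof pf
  rw [if_neg (not_le.2 h0)]

lemma pow_eq {z : ℝ} (hz : 0 < z) :
    z ^ (1 / (1 - p)) = z ^ (1 / (1 - p) - 1) * z := by
  conv_lhs => rw [show 1 / (1 - p) = (1 / (1 - p) - 1) + 1 by ring]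
  rw [Real.rpow_add hz, Real.rpow_one]

lemma prof'_eq (hp0 : 0 < p) (hp1 : p < 1) (hL : 0 < L) {t : ℝ} (h0 : 0 < t)
    (hT : t < profT p L) : prof' p L t =
      √L * (2 / (p + 1)) * (Real.sin ((1 - p) * √L * t / 2) * Real.cos ((1 - p) * √L * t / 2))
        * (2 / (p + 1) * Real.sin ((1 - p) * √L * t / 2) ^ 2) ^ (1 / (1 - p) - 1) := by
  obtain ⟨h1, h2⟩ := arg_mem hp1 hL h0 hT
  have hs : 0 < Real.sin ((1 - p) * √L * t / 2) :=
    Real.sin_pos_of_pos_of_lt_pi h1 (by linarith [Real.pi_pos])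
  unfold prof'
  rw [if_neg (not_le.2 h0), prof_eq h0, Real.cot_eq_cos_div_sin]
  unfold pf
  rw [pow_eq (p := p) (by positivity)]
  field_simp

lemma prof_pos (hp0 : 0 < p) (hp1 : p < 1) (hL : 0 < L) {t : ℝ} (h0 : 0 < t)
    (hT : t < profT p L) : 0 < prof p L t := by
  obtain ⟨h1, h2⟩ := arg_mem hp1 hL h0 hT
  have hs : 0 < Real.sin ((1 - p) * √L * t / 2) :=
    Real.sin_pos_of_pos_of_lt_pi h1 (by linarith [Real.pi_pos])
  rw [prof_eq h0]
  unfold pf
  positivity

lemma prof'_pos (hp0 : 0 < p) (hp1 : p < 1) (hL : 0 < L) {t : ℝ} (h0 : 0 < t)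
    (hT : t < profT p L) : 0 < prof' p L t := by
  obtain ⟨h1, h2⟩ := arg_mem hp1 hL h0 hT
  have hs : 0 < Real.sin ((1 - p) * √L * t / 2) :=
    Real.sin_pos_of_pos_of_lt_pi h1 (by linarith [Real.pi_pos])
  have hc : 0 < Real.cos ((1 - p) * √L * t / 2) :=
    Real.cos_pos_of_mem_Ioo ⟨by linarith [Real.pi_pos], h2⟩
  have hsL : 0 < √L := Real.sqrt_pos.2 hL
  rw [prof'_eq hp0 hp1 hL h0 hT]
  positivity

end

/-- the facts on the profile (module C5p) -/
theorem profFacts {p L : ℝ} (hp0 : 0 < p) (hp1 : p < 1) (hL : 0 < L) : ProfFacts p L := by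
  have hq := one_lt_q hp0 hp1
  have hsL : 0 < √L := Real.sqrt_pos.2 hL
  have hLL : √L * √L = L := Real.mul_self_sqrt hL.le
  have z1 : ∀ t ≤ 0, prof p L t = 0 := fun t ht => by simp [prof, ht]
  have z2 : ∀ t ≤ 0, prof' p L t = 0 := fun t ht => by simp [prof', ht]
  have hpf0 : pf p L 0 = 0 := by
    unfold pf
    simp only [mul_zero, zero_div, Real.sin_zero, ne_eq, OfNat.ofNat_ne_zero, not_false_eq_true,
      zero_pow]
    exact Real.zero_rpow (by positivity)
  refine ⟨profT_pos hp1 hL, ?_, ?_, z1, z2, fun t h0 hT => prof_pos hp0 hp1 hL h0 hT,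
    fun t h0 hT => prof'_pos hp0 hp1 hL h0 hT⟩
  · intro t hT
    rcases lt_trichotomy t 0 with h | h | h
    · rw [z2 t h.le]
      refine (hasDerivAt_const t (0:ℝ)).congr_of_eventuallyEq ?_
      filter_upwards [Iio_mem_nhds h] with s hs
      exact z1 s (mem_Iio.1 hs).le
    · subst h
      rw [z2 0 le_rfl]
      have h1 := hasDerivAt_pf (L := L) hp0 hp1 0
      simp only [mul_zero, zero_div, Real.sin_zero, zero_mul] at h1
      exact hasDerivAt_ite0 hpf0 h1
    · rw [prof'_eq hp0 hp1 hL h hT]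
      refine (hasDerivAt_pf (L := L) hp0 hp1 t).congr_of_eventuallyEq ?_
      filter_upwards [Ioi_mem_nhds h] with s hs
      exact prof_eq (mem_Ioi.1 hs)
  · intro t hT
    rcases lt_trichotomy t 0 with h | h | h
    · rw [z1 t h.le, Real.zero_rpow hp0.ne', sub_zero, mul_zero]
      refine (hasDerivAt_const t (0:ℝ)).congr_of_eventuallyEq ?_
      filter_upwards [Iio_mem_nhds h] with s hs
      exact z2 s (mem_Iio.1 hs).le
    · subst h
      rw [z1 0 le_rfl, Real.zero_rpow hp0.ne', sub_zero, mul_zero]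
      -- the function `G`
      set G : ℝ → ℝ := fun t => (√L * (2 / (p + 1)) * (Real.sin ((1 - p) * √L * t / 2)
        * Real.cos ((1 - p) * √L * t / 2)))
        * (2 / (p + 1) * Real.sin ((1 - p) * √L * t / 2) ^ 2) ^ (1 / (1 - p) - 1) with hG
      have hG0 : G 0 = 0 := by simp [hG]
      have hd : HasDerivAt G 0 0 := by
        have h1 := ((hasDerivAt_sin p L 0).mul (hasDerivAt_cos p L 0)).const_mul
          (√L * (2 / (p + 1)))
        have h2 : ContinuousAt (fun t : ℝ => (2 / (p + 1) *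
            Real.sin ((1 - p) * √L * t / 2) ^ 2) ^ (1 / (1 - p) - 1)) 0 := by
          refine ContinuousAt.rpow_const (by fun_prop) (Or.inr (by linarith))
        have h3 := hasDerivAt_mul0 h1 (by simp) h2
        refine (h3.congr_deriv ?_)
        simp only [mul_zero, zero_div, Real.sin_zero, ne_eq, OfNat.ofNat_ne_zero,
          not_false_eq_true, zero_pow]
        rw [Real.zero_rpow (by linarith : (1 / (1 - p) - 1) ≠ 0)]
        ring
      have h4 := hasDerivAt_ite0 hG0 hd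
      refine h4.congr_of_eventuallyEq ?_
      filter_upwards [Iio_mem_nhds (profT_pos hp1 hL)] with s hs
      by_cases h0 : s ≤ 0
      · simp [h0, z2 s h0]
      · rw [if_neg h0, prof'_eq hp0 hp1 hL (not_le.1 h0) (mem_Iio.1 hs)]
    · obtain ⟨a1, a2⟩ := arg_mem hp1 hL h hT
      have hs : 0 < Real.sin ((1 - p) * √L * t / 2) :=
        Real.sin_pos_of_pos_of_lt_pi a1 (by linarith [Real.pi_pos])
      have h1 := ((hasDerivAt_pf (L := L) hp0 hp1 t).const_mul √L).mul
        ((hasDerivAt_cos p L t).div (hasDerivAt_sin p L t) hs.ne')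
      have h2 : prof p L t ^ p = (2 / (p + 1) * Real.sin ((1 - p) * √L * t / 2) ^ 2)
          ^ (1 / (1 - p) - 1) := by
        rw [prof_eq h]
        unfold pf
        rw [← Real.rpow_mul (by positivity)]
        congr 1
        have h3 : (1 : ℝ) - p ≠ 0 := by linarith
        field_simp
        ring
      have h3 : prof p L t = (2 / (p + 1) * Real.sin ((1 - p) * √L * t / 2) ^ 2)
          ^ (1 / (1 - p) - 1) * (2 / (p + 1) * Real.sin ((1 - p) * √L * t / 2) ^ 2) := by
        rw [prof_eq h]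
        unfold pf
        rw [← pow_eq (p := p) (by positivity)]
      have h4 : pf p L t = (2 / (p + 1) * Real.sin ((1 - p) * √L * t / 2) ^ 2)
          ^ (1 / (1 - p) - 1) * (2 / (p + 1) * Real.sin ((1 - p) * √L * t / 2) ^ 2) := by
        rw [← prof_eq h, h3]
      rw [h2, h3]
      refine (h1.congr_deriv ?_).congr_of_eventuallyEq ?_
      · rw [h4, Pi.div_apply]
        set W := (2 / (p + 1) * Real.sin ((1 - p) * √L * t / 2) ^ 2) ^ (1 / (1 - p) - 1)
        have hc2 := Real.sin_sq_add_cos_sq ((1 - p) * √L * t / 2)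
        set s := Real.sin ((1 - p) * √L * t / 2)
        set c := Real.cos ((1 - p) * √L * t / 2)
        have hp2 : p + 1 ≠ 0 := by linarith
        have hc3 : c ^ 2 = 1 - s ^ 2 := by linarith
        rw [show √L * (√L * (2 / (p + 1)) * (s * c) * W) * (c / s)
            + √L * (W * (2 / (p + 1) * s ^ 2)) * ((-s * ((1 - p) * √L / 2) * s
              - c * (c * ((1 - p) * √L / 2))) / s ^ 2)
            = (√L * √L) * (2 / (p + 1)) * W * c ^ 2
              - (√L * √L) * (2 / (p + 1)) * W * ((1 - p) / 2) * (s ^ 2 + c ^ 2) by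
            field_simp
            ring, hc2, hc3, hLL]
        field_simp
        ring
      · filter_upwards [Ioi_mem_nhds h, Iio_mem_nhds hT] with r hr0 hrT
        have hr1 := arg_mem hp1 hL (mem_Ioi.1 hr0) (mem_Iio.1 hrT)
        simp only [Pi.mul_apply, Pi.div_apply]
        unfold prof'
        rw [if_neg (not_le.2 (mem_Ioi.1 hr0)), prof_eq (mem_Ioi.1 hr0), Real.cot_eq_cos_div_sin]

end H74

end Pool.Agent.Lib.MP_e46711_an
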